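import Pool.Agent.TH686.SP.Shape

set_option autoImplicit false

/-! The coding of arbitrary finite structures in partial orders of dimension two. -/

namespace Pool.Agent.TH686.SP

/-- the lexicographic order -/
def lx (a b : ℕ × ℕ × ℕ) : Prop :=
  a.1 < b.1 ∨ (a.1 = b.1 ∧ (a.2.1 < b.2.1 ∨ (a.2.1 = b.2.1 ∧ a.2.2 < b.2.2)))

theorem lx_irr (a : ℕ × ℕ × ℕ) : ¬ lx a a := by
  unfold lx
  omega

theorem lx_trans {a b c : ℕ × ℕ × ℕ} (h : lx a b) (h' : lx b c) : lx a c := by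
  unfold lx at *
  omega

theorem lx_tri (a b : ℕ × ℕ × ℕ) : lx a b ∨ a = b ∨ lx b a := by
  obtain ⟨a1, a2, a3⟩ := a
  obtain ⟨b1, b2, b3⟩ := b
  unfold lx
  simp only [Prod.mk.injEq]
  omega

/-- the nodes -/
inductive Nd (k K : ℕ) (X : Type) : Type
  | pv (j : Fin (K + 2))
  | el (x : X)
  | dl (t : Fin k → X) (s : Fin (K + 1))
  | tg (t : Fin k → X) (s : Fin (K + 1))
  | vl (t : Fin k → X) (s : Fin (K + 1))

open Nd

instance fin_nd {k K : ℕ} {X : Type} [Finite X] : Finite (Nd k K X) := by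
  refine Finite.of_surjective (α := Fin (K + 2) ⊕ X ⊕ ((Fin k → X) × Fin (K + 1)) ⊕
    ((Fin k → X) × Fin (K + 1)) ⊕ ((Fin k → X) × Fin (K + 1)))
    (Sum.elim pv (Sum.elim el (Sum.elim (fun q => dl q.1 q.2) (Sum.elim (fun q => tg q.1 q.2)
      (fun q => vl q.1 q.2))))) ?_
  rintro (j | x | ⟨t, s⟩ | ⟨t, s⟩ | ⟨t, s⟩)
  · exact ⟨Sum.inl j, rfl⟩
  · exact ⟨Sum.inr (Sum.inl x), rfl⟩
  · exact ⟨Sum.inr (Sum.inr (Sum.inl (t, s))), rfl⟩
  · exact ⟨Sum.inr (Sum.inr (Sum.inr (Sum.inl (t, s)))), rfl⟩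
  · exact ⟨Sum.inr (Sum.inr (Sum.inr (Sum.inr (t, s)))), rfl⟩

section

variable {k K q : ℕ} {X : Type} (σ : Fin k ⊕ Fin q ≃ Fin (K + 1)) (rk : X → ℕ)
  (rt : (Fin k → X) → ℕ) (b : (Fin k → X) → Fin q → Prop) (B : ℕ)

/-- the first key -/
def k1 : Nd k K X → ℕ × ℕ × ℕ
  | pv j => (0, j.1, 0)
  | el x => (0, K + 2 + rk x, 0)
  | dl t s => (1 + rt t, s.1, 0)
  | tg t s => (1 + rt t, s.1, 1)
  | vl t s => (1 + rt t, s.1, 2)

open Classical in
/-- the position of a value point -/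
noncomputable def vk (t : Fin k → X) (s : Fin (K + 1)) : ℕ :=
  match σ.symm s with
  | Sum.inl i => 1 + rk (t i)
  | Sum.inr j => if b t j then 1 + B else 0

/-- the second key -/
noncomputable def k2 : Nd k K X → ℕ × ℕ × ℕ
  | pv j => (1 + 2 * j.1, 0, 0)
  | el x => (2 * K + 5 + rk x, 0, 0)
  | dl t s => (0, rt t, s.1)
  | tg t s => (2 + 2 * s.1, rt t, 0)
  | vl t s => (2 * K + 4 + vk σ rk b B t s, 1 + rt t, s.1)

/-- the first order -/
def o1 (x y : Nd k K X) : Prop := lx (k1 rk rt x) (k1 rk rt y)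

/-- the second order -/
def o2 (x y : Nd k K X) : Prop := lx (k2 σ rk rt b B x) (k2 σ rk rt b B y)

/-- the partial order -/
def PO (x y : Nd k K X) : Prop := o1 rk rt x y ∧ o2 σ rk rt b B x y

end

variable {k K q : ℕ} {X : Type} {σ : Fin k ⊕ Fin q ≃ Fin (K + 1)} {rk : X → ℕ}
  {rt : (Fin k → X) → ℕ} {b : (Fin k → X) → Fin q → Prop} {B : ℕ}

theorem k1_inj (hk : Function.Injective rk) (ht : Function.Injective rt) :
    Function.Injective (k1 (K := K) rk rt) := by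
  rintro (j | x | ⟨t, s⟩ | ⟨t, s⟩ | ⟨t, s⟩) (j' | x' | ⟨t', s'⟩ | ⟨t', s'⟩ | ⟨t', s'⟩) h <;>
    simp only [k1, Prod.mk.injEq] at h <;> try omega
  · rw [show j = j' from Fin.ext h.2.1]
  · rw [hk (show rk x = rk x' by omega)]
  · rw [ht (show rt t = rt t' by omega), show s = s' from Fin.ext h.2.1]
  · rw [ht (show rt t = rt t' by omega), show s = s' from Fin.ext h.2.1]
  · rw [ht (show rt t = rt t' by omega), show s = s' from Fin.ext h.2.1]

theorem k2_inj (hk : Function.Injective rk) (ht : Function.Injective rt) :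
    Function.Injective (k2 (K := K) σ rk rt b B) := by
  rintro (j | x | ⟨t, s⟩ | ⟨t, s⟩ | ⟨t, s⟩) (j' | x' | ⟨t', s'⟩ | ⟨t', s'⟩ | ⟨t', s'⟩) h <;>
    simp only [k2, Prod.mk.injEq] at h <;> try omega
  · rw [show j = j' from Fin.ext (by omega)]
  · rw [hk (show rk x = rk x' by omega)]
  · rw [ht (show rt t = rt t' by omega), show s = s' from Fin.ext h.2.2]
  · rw [ht (show rt t = rt t' by omega), show s = s' from Fin.ext (by omega)]
  · rw [ht (show rt t = rt t' by omega), show s = s' from Fin.ext h.2.2]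

theorem PO_irr (x : Nd k K X) : ¬ PO σ rk rt b B x x := fun h => lx_irr _ h.1

theorem PO_trans (x y z : Nd k K X) (h : PO σ rk rt b B x y) (h' : PO σ rk rt b B y z) :
    PO σ rk rt b B x z := ⟨lx_trans h.1 h'.1, lx_trans h.2 h'.2⟩

theorem pp (i j : Fin (K + 2)) : PO σ rk rt b B (pv i) (pv j) ↔ i < j := by
  simp only [PO, o1, o2, k1, k2, lx, Fin.lt_def, true_and, lt_self_iff_false, false_or, and_false,
    or_false] <;> omega

theorem pe (i : Fin (K + 2)) (x : X) : PO σ rk rt b B (pv i) (el x) := by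
  simp only [PO, o1, o2, k1, k2, lx, true_and, lt_self_iff_false, false_or, and_false,
    or_false] <;> omega

theorem pd (i : Fin (K + 2)) (t : Fin k → X) (s : Fin (K + 1)) :
    ¬ PO σ rk rt b B (pv i) (dl t s) := by
  simp only [PO, o1, o2, k1, k2, lx, true_and, lt_self_iff_false, false_or, and_false,
    or_false] <;> omega

theorem pt (i : Fin (K + 2)) (t : Fin k → X) (s : Fin (K + 1)) :
    PO σ rk rt b B (pv i) (tg t s) ↔ i.1 ≤ s.1 := by
  simp only [PO, o1, o2, k1, k2, lx, true_and, lt_self_iff_false, false_or, and_false,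
    or_false] <;> omega

theorem pw (i : Fin (K + 2)) (t : Fin k → X) (s : Fin (K + 1)) :
    PO σ rk rt b B (pv i) (vl t s) := by
  simp only [PO, o1, o2, k1, k2, lx, true_and, lt_self_iff_false, false_or, and_false,
    or_false] <;> omega

theorem dp (i : Fin (K + 2)) (t : Fin k → X) (s : Fin (K + 1)) :
    ¬ PO σ rk rt b B (dl t s) (pv i) := by
  simp only [PO, o1, o2, k1, k2, lx, true_and, lt_self_iff_false, false_or, and_false,
    or_false] <;> omega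

theorem de (x : X) (t : Fin k → X) (s : Fin (K + 1)) :
    ¬ PO σ rk rt b B (dl t s) (el x) := by
  simp only [PO, o1, o2, k1, k2, lx, true_and, lt_self_iff_false, false_or, and_false,
    or_false] <;> omega

theorem dd (t : Fin k → X) (s : Fin (K + 1)) (t' : Fin k → X) (s' : Fin (K + 1)) :
    PO σ rk rt b B (dl t s) (dl t' s') ↔ rt t < rt t' ∨ (rt t = rt t' ∧ s.1 < s'.1) := by
  simp only [PO, o1, o2, k1, k2, lx, true_and, lt_self_iff_false, false_or, and_false,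
    or_false] <;> omega

theorem dt (t : Fin k → X) (s : Fin (K + 1)) (t' : Fin k → X) (s' : Fin (K + 1)) :
    PO σ rk rt b B (dl t s) (tg t' s') ↔ rt t < rt t' ∨ (rt t = rt t' ∧ s.1 ≤ s'.1) := by
  simp only [PO, o1, o2, k1, k2, lx, true_and, lt_self_iff_false, false_or, and_false,
    or_false] <;> omega

theorem dv (t : Fin k → X) (s : Fin (K + 1)) (t' : Fin k → X) (s' : Fin (K + 1)) :
    PO σ rk rt b B (dl t s) (vl t' s') ↔ rt t < rt t' ∨ (rt t = rt t' ∧ s.1 ≤ s'.1) := by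
  simp only [PO, o1, o2, k1, k2, lx, true_and, lt_self_iff_false, false_or, and_false,
    or_false] <;> omega

theorem ev (x : X) (t : Fin k → X) (s : Fin (K + 1)) :
    PO σ rk rt b B (el x) (vl t s) ↔ rk x + 1 ≤ vk σ rk b B t s := by
  simp only [PO, o1, o2, k1, k2, lx, true_and, lt_self_iff_false, false_or, and_false,
    or_false] <;> omega

theorem ee (x y : X) : PO σ rk rt b B (el x) (el y) ↔ rk x < rk y := by
  simp only [PO, o1, o2, k1, k2, lx, true_and, lt_self_iff_false, false_or, and_false,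
    or_false] <;> omega

theorem cDl {x : Nd k K X} : Dl (PO σ rk rt b B) pv x ↔ ∃ t s, x = dl t s := by
  rcases x with j | x | ⟨t, s⟩ | ⟨t, s⟩ | ⟨t, s⟩
  · refine iff_of_false (fun h => ?_) (fun ⟨_, _, h⟩ => nomatch h)
    rcases Fin.eq_zero_or_eq_succ j with h1 | ⟨i, h1⟩
    · exact h.2 (by rw [h1])
    · exact h.1 ((pp _ _).2 (by rw [h1]; exact Fin.succ_pos i))
  · exact iff_of_false (fun h => h.1 (pe _ _)) (fun ⟨_, _, h⟩ => nomatch h)
  · exact iff_of_true ⟨pd _ _ _, fun h => nomatch h⟩ ⟨_, _, rfl⟩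
  · exact iff_of_false (fun h => h.1 ((pt _ _ _).2 (Nat.zero_le _))) (fun ⟨_, _, h⟩ => nomatch h)
  · exact iff_of_false (fun h => h.1 (pw _ _ _)) (fun ⟨_, _, h⟩ => nomatch h)

theorem cNdl_pv (j : Fin (K + 2)) : Ndl (PO σ rk rt b B) pv (pv j) := by
  intro d hd
  obtain ⟨t, s, rfl⟩ := cDl.1 hd
  exact dp _ _ _

theorem cNdl_el (x : X) : Ndl (PO σ rk rt b B) pv (el x) := by
  intro d hd
  obtain ⟨t, s, rfl⟩ := cDl.1 hd
  exact de _ _ _

theorem cNdl_tg (t : Fin k → X) (s : Fin (K + 1)) : ¬ Ndl (PO σ rk rt b B) pv (tg t s) :=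
  fun h => h (dl t s) (cDl.2 ⟨_, _, rfl⟩) ((dt _ _ _ _).2 (Or.inr ⟨rfl, le_rfl⟩))

theorem cNdl_vl (t : Fin k → X) (s : Fin (K + 1)) : ¬ Ndl (PO σ rk rt b B) pv (vl t s) :=
  fun h => h (dl t s) (cDl.2 ⟨_, _, rfl⟩) ((dv _ _ _ _).2 (Or.inr ⟨rfl, le_rfl⟩))

theorem cEl {x : Nd k K X} : El (PO σ rk rt b B) pv x ↔ ∃ y, x = el y := by
  rcases x with j | x | ⟨t, s⟩ | ⟨t, s⟩ | ⟨t, s⟩
  · refine iff_of_false (fun h => ?_) (fun ⟨_, h⟩ => nomatch h)
    have := (pp _ _).1 h.1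
    exact absurd this (not_lt.2 (Fin.le_last j))
  · exact iff_of_true ⟨pe _ _, cNdl_el _⟩ ⟨_, rfl⟩
  · exact iff_of_false (fun h => pd _ _ _ h.1) (fun ⟨_, h⟩ => nomatch h)
  · exact iff_of_false (fun h => cNdl_tg _ _ h.2) (fun ⟨_, h⟩ => nomatch h)
  · exact iff_of_false (fun h => cNdl_vl _ _ h.2) (fun ⟨_, h⟩ => nomatch h)

theorem cOwn (ht : Function.Injective rt) {d x : Nd k K X} :
    Own (PO σ rk rt b B) pv d x ↔ ∃ t s, d = dl t s ∧ (x = tg t s ∨ x = vl t s) := by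
  constructor
  · rintro ⟨h1, h2, h3, h4⟩
    obtain ⟨t, s, rfl⟩ := cDl.1 h1
    rcases x with j | x | ⟨t', s'⟩ | ⟨t', s'⟩ | ⟨t', s'⟩
    · exact absurd h3 (dp _ _ _)
    · exact absurd h3 (de _ _ _)
    · exact absurd h2 (pd _ _ _)
    · have h5 := (dt _ _ _ _).1 h3
      have h6 := h4 (dl t' s') (cDl.2 ⟨_, _, rfl⟩) ((dt _ _ _ _).2 (Or.inr ⟨rfl, le_rfl⟩))
      rcases h6 with h6 | h6
      · exact ⟨t, s, rfl, Or.inl (by cases h6; rfl)⟩
      · rw [dd] at h6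
        omega
    · have h5 := (dv _ _ _ _).1 h3
      have h6 := h4 (dl t' s') (cDl.2 ⟨_, _, rfl⟩) ((dv _ _ _ _).2 (Or.inr ⟨rfl, le_rfl⟩))
      rcases h6 with h6 | h6
      · exact ⟨t, s, rfl, Or.inr (by cases h6; rfl)⟩
      · rw [dd] at h6
        omega
  · have key : ∀ (t : Fin k → X) (s : Fin (K + 1)) (d' : Nd k K X),
        Dl (PO σ rk rt b B) pv d' → (∀ t' s', d' = dl t' s' →
          rt t' < rt t ∨ (rt t' = rt t ∧ s'.1 ≤ s.1)) → (d' = dl t s ∨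
            PO σ rk rt b B d' (dl t s)) := by
      intro t s d' hd' h
      obtain ⟨t', s', rfl⟩ := cDl.1 hd'
      rw [dd]
      rcases h t' s' rfl with h1 | ⟨h1, h2⟩
      · exact Or.inr (Or.inl h1)
      · rcases lt_or_eq_of_le h2 with h3 | h3
        · exact Or.inr (Or.inr ⟨h1, h3⟩)
        · left
          rw [ht h1, Fin.ext h3]
    rintro ⟨t, s, rfl, rfl | rfl⟩
    · refine ⟨cDl.2 ⟨_, _, rfl⟩, (pt _ _ _).2 (Nat.zero_le _),
        (dt _ _ _ _).2 (Or.inr ⟨rfl, le_rfl⟩), fun d' h1 h2 => key _ _ _ h1 ?_⟩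
      rintro t' s' rfl
      exact (dt _ _ _ _).1 h2
    · refine ⟨cDl.2 ⟨_, _, rfl⟩, pw _ _ _,
        (dv _ _ _ _).2 (Or.inr ⟨rfl, le_rfl⟩), fun d' h1 h2 => key _ _ _ h1 ?_⟩
      rintro t' s' rfl
      exact (dv _ _ _ _).1 h2

theorem cTg (ht : Function.Injective rt) {t : Fin k → X} {s s' : Fin (K + 1)} :
    Tg (PO σ rk rt b B) pv (dl t s) s' ↔ s' = s := by
  constructor
  · rintro ⟨x, h1, h2, h3⟩
    obtain ⟨t', s'', h4, rfl | rfl⟩ := (cOwn ht).1 h1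
    · cases h4
      rw [pt] at h2 h3
      simp only [Fin.val_castSucc, Fin.val_succ] at h2 h3
      exact Fin.ext (by omega)
    · exact absurd (pw _ _ _) h3
  · rintro rfl
    refine ⟨tg t s', (cOwn ht).2 ⟨_, _, rfl, Or.inl rfl⟩, ?_, ?_⟩
    · rw [pt]
      simp
    · rw [pt]
      simp

theorem cVp (ht : Function.Injective rt) {t : Fin k → X} {s : Fin (K + 1)} {x : Nd k K X} :
    Vp (PO σ rk rt b B) pv (dl t s) x ↔ x = vl t s := by
  constructor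
  · rintro ⟨h1, h2⟩
    obtain ⟨t', s'', h4, rfl | rfl⟩ := (cOwn ht).1 h1
    · cases h4
      rw [pt] at h2
      simp only [Fin.val_last] at h2
      omega
    · cases h4
      rfl
  · rintro rfl
    exact ⟨(cOwn ht).2 ⟨_, _, rfl, Or.inr rfl⟩, pw _ _ _⟩

theorem cSt (ht : Function.Injective rt) {d : Nd k K X} :
    St (PO σ rk rt b B) pv d ↔ ∃ t, d = dl t 0 := by
  constructor
  · rintro ⟨h1, h2⟩
    obtain ⟨t, s, rfl⟩ := cDl.1 h1
    rw [cTg ht] at h2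
    exact ⟨t, by rw [h2]⟩
  · rintro ⟨t, rfl⟩
    exact ⟨cDl.2 ⟨_, _, rfl⟩, (cTg ht).2 rfl⟩

theorem cStOf (ht : Function.Injective rt) {d0 : Nd k K X} {t : Fin k → X} {s : Fin (K + 1)} :
    StOf (PO σ rk rt b B) pv d0 (dl t s) ↔ d0 = dl t 0 := by
  have h0 : (dl t 0 : Nd k K X) = dl t s ∨ PO σ rk rt b B (dl t 0) (dl t s) := by
    rcases Nat.eq_zero_or_pos s.1 with h | h
    · left
      rw [show s = 0 from Fin.ext h]
    · exact Or.inr ((dd _ _ _ _).2 (Or.inr ⟨rfl, h⟩))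
  have h1 : ∀ t' : Fin k → X, ((dl t' 0 : Nd k K X) = dl t s ∨
      PO σ rk rt b B (dl t' 0) (dl t s)) → ((dl t' 0 : Nd k K X) = dl t 0 ∨
      PO σ rk rt b B (dl t' 0) (dl t 0)) := by
    rintro t' (h | h)
    · cases h
      exact Or.inl rfl
    · rw [dd] at h ⊢
      rcases h with h | ⟨h, _⟩
      · exact Or.inr (Or.inl h)
      · left
        rw [ht h]
  constructor
  · rintro ⟨h2, h3, h4⟩
    obtain ⟨t', rfl⟩ := (cSt ht).1 h2
    rcases h1 t' h3 with h5 | h5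
    · exact h5
    · rcases h4 (dl t 0) ((cSt ht).2 ⟨_, rfl⟩) h0 with h6 | h6
      · exact h6.symm
      · exact absurd (PO_trans _ _ _ h5 h6) (PO_irr _)
  · rintro rfl
    refine ⟨(cSt ht).2 ⟨_, rfl⟩, h0, fun d' h2 h3 => ?_⟩
    obtain ⟨t', rfl⟩ := (cSt ht).1 h2
    exact h1 t' h3

theorem cCd (ht : Function.Injective rt) {d d0 : Nd k K X} {s : Fin (K + 1)} :
    Cd (PO σ rk rt b B) pv d0 s d ↔ ∃ t, d0 = dl t 0 ∧ d = dl t s := by
  constructor
  · rintro ⟨h1, h2, h3⟩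
    obtain ⟨t, s', rfl⟩ := cDl.1 h1
    rw [cStOf ht] at h2
    rw [cTg ht] at h3
    exact ⟨t, h2, by rw [h3]⟩
  · rintro ⟨t, rfl, rfl⟩
    exact ⟨cDl.2 ⟨_, _, rfl⟩, (cStOf ht).2 rfl, (cTg ht).2 rfl⟩

theorem vk_inl (t : Fin k → X) (i : Fin k) : vk σ rk b B t (σ (Sum.inl i)) = 1 + rk (t i) := by
  simp [vk]

theorem vk_inr_pos {t : Fin k → X} {j : Fin q} (h : b t j) :
    vk σ rk b B t (σ (Sum.inr j)) = 1 + B := by
  simp [vk, h]

theorem vk_inr_neg {t : Fin k → X} {j : Fin q} (h : ¬ b t j) :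
    vk σ rk b B t (σ (Sum.inr j)) = 0 := by
  simp [vk, h]

theorem cVl (hk : Function.Injective rk) {t : Fin k → X} {i : Fin k} {e : Nd k K X} :
    Vl (PO σ rk rt b B) pv (vl t (σ (Sum.inl i))) e ↔ e = el (t i) := by
  have h0 : PO σ rk rt b B (el (t i)) (vl t (σ (Sum.inl i))) := by
    rw [ev, vk_inl]
    omega
  constructor
  · rintro ⟨h1, h2, h3⟩
    obtain ⟨y, rfl⟩ := cEl.1 h1
    rcases h3 (el (t i)) (cEl.2 ⟨_, rfl⟩) h0 with h4 | h4
    · exact h4.symm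
    · rw [ev, vk_inl] at h2
      rw [ee] at h4
      omega
  · rintro rfl
    refine ⟨cEl.2 ⟨_, rfl⟩, h0, fun e' h1 h2 => ?_⟩
    obtain ⟨y, rfl⟩ := cEl.1 h1
    rw [ev, vk_inl] at h2
    rcases lt_or_eq_of_le (show rk y ≤ rk (t i) by omega) with h3 | h3
    · exact Or.inr ((ee _ _).2 h3)
    · left
      rw [hk h3]

theorem cCv (hk : Function.Injective rk) (ht : Function.Injective rt) {t : Fin k → X} {i : Fin k}
    {e : Nd k K X} :
    Cv (PO σ rk rt b B) pv (dl t 0) (σ (Sum.inl i)) e ↔ e = el (t i) := by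
  constructor
  · rintro ⟨d, x, h1, h2, h3⟩
    obtain ⟨t', h4, rfl⟩ := (cCd ht).1 h1
    cases h4
    rw [cVp ht] at h2
    subst h2
    exact (cVl hk).1 h3
  · rintro rfl
    exact ⟨dl t _, vl t _, (cCd ht).2 ⟨t, rfl, rfl⟩, (cVp ht).2 rfl, (cVl hk).2 rfl⟩

theorem cBt (ht : Function.Injective rt) (hB : ∀ x, rk x < B) (hk0 : 0 < k) {t : Fin k → X}
    {j : Fin q} : Bt (PO σ rk rt b B) pv (dl t 0) (σ (Sum.inr j)) ↔ b t j := by
  constructor
  · rintro ⟨d, x, e, h1, h2, h3, h4⟩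
    obtain ⟨t', h5, rfl⟩ := (cCd ht).1 h1
    cases h5
    rw [cVp ht] at h2
    subst h2
    obtain ⟨y, rfl⟩ := cEl.1 h3
    by_contra h6
    rw [ev, vk_inr_neg h6] at h4
    omega
  · intro h
    refine ⟨dl t _, vl t _, el (t ⟨0, hk0⟩), (cCd ht).2 ⟨t, rfl, rfl⟩, (cVp ht).2 rfl,
      cEl.2 ⟨_, rfl⟩, ?_⟩
    rw [ev, vk_inr_pos h]
    have := hB (t ⟨0, hk0⟩)
    omega

theorem cShape (hk : Function.Injective rk) (ht : Function.Injective rt) :
    Shape (PO σ rk rt b B) pv σ where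
  chain i j h := (pp _ _).2 h
  nd := cNdl_pv
  cls x h1 h2 := by
    rcases x with j | x | ⟨t, s⟩ | ⟨t, s⟩ | ⟨t, s⟩
    · exact Or.inl ⟨j, rfl⟩
    · exact Or.inr (pe _ _)
    · exact absurd h1 (pd _ _ _)
    · exact absurd h2 (cNdl_tg _ _)
    · exact absurd h2 (cNdl_vl _ _)
  own x h1 h2 := by
    rcases x with j | x | ⟨t, s⟩ | ⟨t, s⟩ | ⟨t, s⟩
    · exact absurd (cNdl_pv _) h2
    · exact absurd (cNdl_el _) h2
    · exact absurd h1 (pd _ _ _)
    · exact ⟨dl t s, (cOwn ht).2 ⟨_, _, rfl, Or.inl rfl⟩⟩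
    · exact ⟨dl t s, (cOwn ht).2 ⟨_, _, rfl, Or.inr rfl⟩⟩
  tag d hd := by
    obtain ⟨t, s, rfl⟩ := cDl.1 hd
    refine ⟨tg t s, ⟨(cOwn ht).2 ⟨_, _, rfl, Or.inl rfl⟩, ?_⟩, ?_⟩
    · rw [pt]
      simp only [Fin.val_last]
      omega
    · rintro x ⟨h1, h2⟩
      obtain ⟨t', s'', h4, rfl | rfl⟩ := (cOwn ht).1 h1
      · cases h4
        rfl
      · exact absurd (pw _ _ _) h2
  val d hd := by
    obtain ⟨t, s, rfl⟩ := cDl.1 hd
    exact ⟨vl t s, (cVp ht).2 rfl, fun x h => (cVp ht).1 h⟩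
  sto d hd := by
    obtain ⟨t, s, rfl⟩ := cDl.1 hd
    exact ⟨dl t 0, (cStOf ht).2 rfl⟩
  cd d0 h0 s := by
    obtain ⟨t, rfl⟩ := (cSt ht).1 h0
    refine ⟨dl t s, (cCd ht).2 ⟨t, rfl, rfl⟩, fun d h => ?_⟩
    obtain ⟨t', h1, rfl⟩ := (cCd ht).1 h
    cases h1
    rfl
  cv d0 h0 i := by
    obtain ⟨t, rfl⟩ := (cSt ht).1 h0
    exact ⟨el (t i), (cCv hk ht).2 rfl⟩
  tup a ha := by
    choose y hy using fun i => cEl.1 (ha i)
    refine ⟨dl y 0, ⟨(cSt ht).2 ⟨_, rfl⟩, fun i => (cCv hk ht).2 (hy i)⟩, ?_⟩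
    rintro d0 ⟨h1, h2⟩
    obtain ⟨t, rfl⟩ := (cSt ht).1 h1
    have : t = y := by
      funext i
      have := (cCv hk ht).1 (h2 i)
      rw [hy i, Nd.el.injEq] at this
      exact this.symm
    rw [this]

/-- the number of nodes -/
theorem card_nd (k K : ℕ) (X : Type) [Finite X] (hkK : k ≤ K + 1) : Nat.card (Nd k K X) =
    (K + 2) + Nat.card X + 3 * ((Nat.card X) ^ k * (K + 1)) := by
  classical
  have := Fintype.ofFinite X
  obtain ⟨q, hq⟩ : ∃ q, k + q = K + 1 := ⟨K + 1 - k, by omega⟩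
  let σ : Fin k ⊕ Fin q ≃ Fin (K + 1) := finSumFinEquiv.trans (finCongr hq)
  let e1 := Fintype.equivFin X
  let e2 := Fintype.equivFin (Fin k → X)
  have hs := cShape (σ := σ) (rk := fun x => (e1 x).1) (rt := fun t => (e2 t).1)
    (b := fun _ _ => False) (B := 0) (fun x y h => e1.injective (Fin.ext h))
    (fun x y h => e2.injective (Fin.ext h))
  have h1 := hs.card_all PO_trans PO_irr
  have h2 : Nat.card {x // El (PO σ (fun x => (e1 x).1) (fun t => (e2 t).1)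
      (fun _ _ => False) 0) pv x} = Nat.card X := by
    refine (Nat.card_congr (Equiv.ofBijective (fun x : X => ⟨el x, cEl.2 ⟨x, rfl⟩⟩) ⟨?_, ?_⟩)).symm
    · intro x y h
      have := congrArg Subtype.val h
      cases this
      rfl
    · rintro ⟨x, hx⟩
      obtain ⟨y, rfl⟩ := cEl.1 hx
      exact ⟨y, rfl⟩
  rw [h1, h2]

end Pool.Agent.TH686.SP
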