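import Mathlib

set_option autoImplicit false

/-! Predicates on structures (on arbitrary sets) and assignments which are uniformly first-order
definable. -/

namespace Pool.Agent.TH686.SP

open FirstOrder FirstOrder.Language

variable {L : FirstOrder.Language.{0, 0}}

/-- the predicate `P` is defined by one formula in all structures -/
def FD {α : Type} (P : ∀ M : Type, L.Structure M → (α → M) → Prop) : Prop :=
  ∃ ψ : L.Formula α, ∀ (M : Type) (S : L.Structure M) (v : α → M),
    @Formula.Realize L M S α ψ v ↔ P M S v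

variable {α β : Type}

theorem FD.congr {P Q : ∀ M : Type, L.Structure M → (α → M) → Prop} (h : FD P)
    (hPQ : ∀ M S v, P M S v ↔ Q M S v) : FD Q := by
  obtain ⟨ψ, hψ⟩ := h
  exact ⟨ψ, fun M S v => (hψ M S v).trans (hPQ M S v)⟩

theorem FD.not {P : ∀ M : Type, L.Structure M → (α → M) → Prop} (h : FD P) :
    FD (fun M S v => ¬ P M S v) := by
  obtain ⟨ψ, hψ⟩ := h
  refine ⟨ψ.not, fun M S v => ?_⟩
  show _ ↔ ¬ P M S v
  rw [← hψ M S v]
  exact Formula.realize_not

theorem FD.and {P Q : ∀ M : Type, L.Structure M → (α → M) → Prop} (h : FD P) (h' : FD Q) :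
    FD (fun M S v => P M S v ∧ Q M S v) := by
  obtain ⟨ψ, hψ⟩ := h
  obtain ⟨χ, hχ⟩ := h'
  refine ⟨ψ ⊓ χ, fun M S v => ?_⟩
  show _ ↔ P M S v ∧ Q M S v
  rw [← hψ M S v, ← hχ M S v]
  exact Formula.realize_inf

theorem FD.imp {P Q : ∀ M : Type, L.Structure M → (α → M) → Prop} (h : FD P) (h' : FD Q) :
    FD (fun M S v => P M S v → Q M S v) := by
  obtain ⟨ψ, hψ⟩ := h
  obtain ⟨χ, hχ⟩ := h'
  refine ⟨ψ.imp χ, fun M S v => ?_⟩
  show _ ↔ (P M S v → Q M S v)
  rw [← hψ M S v, ← hχ M S v]
  exact Formula.realize_imp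

theorem FD.or {P Q : ∀ M : Type, L.Structure M → (α → M) → Prop} (h : FD P) (h' : FD Q) :
    FD (fun M S v => P M S v ∨ Q M S v) :=
  (h.not.imp h').congr fun M S v => by tauto

theorem FD.iff {P Q : ∀ M : Type, L.Structure M → (α → M) → Prop} (h : FD P) (h' : FD Q) :
    FD (fun M S v => (P M S v ↔ Q M S v)) :=
  ((h.imp h').and (h'.imp h)).congr fun M S v => by tauto

theorem FD.const (c : Prop) : FD (L := L) (fun M _ (_ : α → M) => c) := by
  by_cases hc : c
  · refine ⟨⊤, fun M S v => ?_⟩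
    simp only [hc, iff_true]
    exact Formula.realize_top.2 trivial
  · refine ⟨⊥, fun M S v => ?_⟩
    simp only [hc, iff_false]
    exact fun h => Formula.realize_bot.1 h

theorem FD.eq (i j : α) : FD (L := L) (fun _ _ v => v i = v j) := by
  refine ⟨Term.equal (Term.var i) (Term.var j), fun M S v => ?_⟩
  exact Formula.realize_equal

theorem FD.rel {n : ℕ} (R : L.Relations n) (t : Fin n → α) :
    FD (fun M S v => @Structure.RelMap L M S n R (fun i => v (t i))) := by
  refine ⟨R.formula (fun i => Term.var (t i)), fun M S v => ?_⟩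
  exact Formula.realize_rel

theorem FD.sub {P : ∀ M : Type, L.Structure M → (α → M) → Prop} (h : FD P) (g : α → β) :
    FD (fun M S v => P M S (fun i => v (g i))) := by
  obtain ⟨ψ, hψ⟩ := h
  refine ⟨ψ.relabel g, fun M S v => ?_⟩
  have := hψ M S (v ∘ g)
  rw [@Formula.realize_relabel L M S α β ψ g v]
  exact this

theorem FD.all {P : ∀ M : Type, L.Structure M → (α → M) → (β → M) → Prop} [Finite β]
    (h : FD (fun M S (w : α ⊕ β → M) => P M S (fun i => w (Sum.inl i)) (fun i => w (Sum.inr i)))) :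
    FD (fun M S v => ∀ b : β → M, P M S v b) := by
  obtain ⟨ψ, hψ⟩ := h
  refine ⟨ψ.iAlls β, fun M S v => ?_⟩
  rw [@Formula.realize_iAlls L M S α β _ ψ v]
  refine forall_congr' fun b => ?_
  rw [hψ M S]
  rfl

theorem FD.ex {P : ∀ M : Type, L.Structure M → (α → M) → (β → M) → Prop} [Finite β]
    (h : FD (fun M S (w : α ⊕ β → M) => P M S (fun i => w (Sum.inl i)) (fun i => w (Sum.inr i)))) :
    FD (fun M S v => ∃ b : β → M, P M S v b) := by
  refine ((FD.all (P := fun M S v b => ¬ P M S v b) h.not).not).congr fun M S v => ?_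
  push Not
  rfl

/-- finite conjunctions -/
theorem FD.fin {ι : Type} [Finite ι] {P : ι → ∀ M : Type, L.Structure M → (α → M) → Prop}
    (h : ∀ i, FD (P i)) : FD (fun M S v => ∀ i, P i M S v) := by
  choose ψ hψ using h
  refine ⟨Formula.iInf ψ, fun M S v => ?_⟩
  rw [@Formula.realize_iInf L M S α ι _ ψ v]
  exact forall_congr' fun i => hψ i M S v

/-- finite disjunctions -/
theorem FD.fin' {ι : Type} [Finite ι] {P : ι → ∀ M : Type, L.Structure M → (α → M) → Prop}
    (h : ∀ i, FD (P i)) : FD (fun M S v => ∃ i, P i M S v) := by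
  refine (FD.fin fun i => (h i).not).not.congr fun M S v => ?_
  push Not
  rfl

/-- one universal quantifier -/
theorem FD.all1 {P : ∀ M : Type, L.Structure M → (α → M) → M → Prop}
    (h : FD (fun M S (w : α ⊕ Unit → M) => P M S (fun i => w (Sum.inl i)) (w (Sum.inr ())))) :
    FD (fun M S v => ∀ a : M, P M S v a) := by
  refine (FD.all (β := Unit) (P := fun M S v b => P M S v (b ())) h).congr fun M S v => ?_
  exact ⟨fun h a => h fun _ => a, fun h b => h (b ())⟩

/-- one existential quantifier -/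
theorem FD.ex1 {P : ∀ M : Type, L.Structure M → (α → M) → M → Prop}
    (h : FD (fun M S (w : α ⊕ Unit → M) => P M S (fun i => w (Sum.inl i)) (w (Sum.inr ())))) :
    FD (fun M S v => ∃ a : M, P M S v a) := by
  refine (FD.all1 (P := fun M S v a => ¬ P M S v a) h.not).not.congr fun M S v => ?_
  push Not
  rfl

/-- closed predicates give sentences -/
theorem FD.sent {P : ∀ M : Type, L.Structure M → Prop}
    (h : FD (fun M S (_ : Empty → M) => P M S)) :
    ∃ ψ : L.Sentence, ∀ (M : Type) (S : L.Structure M), @Sentence.Realize L M S ψ ↔ P M S := by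
  obtain ⟨ψ, hψ⟩ := h
  exact ⟨ψ, fun M S => hψ M S default⟩

end Pool.Agent.TH686.SP
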