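import Pool.Agent.TH686.SP.FD

set_option autoImplicit false

/-! Many-sorted, many-dimensional first-order interpretations and the translation of formulas. -/

namespace Pool.Agent.TH686.SP

open FirstOrder FirstOrder.Language

/-- interpretation data: elements are represented by a sort and a tuple of length `A` -/
structure Itp (L L' : FirstOrder.Language.{0, 0}) (S : Type) (A : ℕ) (κ : Type) where
  dom : S → ∀ M : Type, L'.Structure M → (κ → M) → (Fin A → M) → Prop
  eqv : S → S → ∀ M : Type, L'.Structure M → (κ → M) → (Fin A → M) → (Fin A → M) → Prop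
  rel : ∀ {m : ℕ}, L.Relations m → (Fin m → S) → ∀ M : Type, L'.Structure M → (κ → M) →
    (Fin m → Fin A → M) → Prop
  fn : ∀ {m : ℕ}, L.Functions m → (Fin m → S) → S → ∀ M : Type, L'.Structure M → (κ → M) →
    (Fin m → Fin A → M) → (Fin A → M) → Prop
  fd_dom : ∀ (c : S) {α : Type} (p : κ → α) (w : Fin A → α),
    FD (fun M T v => dom c M T (fun i => v (p i)) (fun j => v (w j)))
  fd_eqv : ∀ (c c' : S) {α : Type} (p : κ → α) (w w' : Fin A → α),
    FD (fun M T v => eqv c c' M T (fun i => v (p i)) (fun j => v (w j)) (fun j => v (w' j)))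
  fd_rel : ∀ {m : ℕ} (R : L.Relations m) (cs : Fin m → S) {α : Type} (p : κ → α)
    (ws : Fin m → Fin A → α),
    FD (fun M T v => rel R cs M T (fun i => v (p i)) (fun i j => v (ws i j)))
  fd_fn : ∀ {m : ℕ} (f : L.Functions m) (cs : Fin m → S) (c : S) {α : Type} (p : κ → α)
    (ws : Fin m → Fin A → α) (w : Fin A → α),
    FD (fun M T v => fn f cs c M T (fun i => v (p i)) (fun i j => v (ws i j)) (fun j => v (w j)))

variable {L L' : FirstOrder.Language.{0, 0}} {S : Type} {A : ℕ} {κ : Type}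

/-- `X` is represented in `M` -/
structure Rep (I : Itp L L' S A κ) (X : Type) (T0 : L.Structure X) (M : Type)
    (T : L'.Structure M) (p : κ → M) (ρ : S → (Fin A → M) → X → Prop) : Prop where
  ex : ∀ x, ∃ c w, ρ c w x
  dom : ∀ c w, I.dom c M T p w ↔ ∃ x, ρ c w x
  eqv : ∀ {c c' : S} {w w' : Fin A → M} {x x' : X}, ρ c w x → ρ c' w' x' →
    (I.eqv c c' M T p w w' ↔ x = x')
  rel : ∀ {m : ℕ} (R : L.Relations m) (cs : Fin m → S) (ws : Fin m → Fin A → M)
    (xs : Fin m → X), (∀ i, ρ (cs i) (ws i) (xs i)) →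
    (I.rel R cs M T p ws ↔ @Structure.RelMap L X T0 m R xs)
  fn : ∀ {m : ℕ} (f : L.Functions m) (cs : Fin m → S) (c : S) (ws : Fin m → Fin A → M)
    (w : Fin A → M) (xs : Fin m → X) (x : X), (∀ i, ρ (cs i) (ws i) (xs i)) → ρ c w x →
    (I.fn f cs c M T p ws w ↔ @Structure.funMap L X T0 m f xs = x)

theorem term_tr [Finite S] (I : Itp L L' S A κ) {β : Type} (t : L.Term β) (cs : β → S) (c : S) :
    ∃ Q : ∀ M : Type, L'.Structure M → (κ → M) → (β → Fin A → M) → (Fin A → M) → Prop,
      (∀ {α : Type} (p : κ → α) (ws : β → Fin A → α) (w : Fin A → α),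
        FD (fun M T v => Q M T (fun i => v (p i)) (fun b j => v (ws b j)) (fun j => v (w j)))) ∧
      ∀ (X : Type) (T0 : L.Structure X) (M : Type) (T : L'.Structure M) (p : κ → M)
        (ρ : S → (Fin A → M) → X → Prop), Rep I X T0 M T p ρ →
        ∀ (ws : β → Fin A → M) (w : Fin A → M) (xs : β → X) (x : X),
          (∀ b, ρ (cs b) (ws b) (xs b)) → ρ c w x →
          (Q M T p ws w ↔ @Term.realize L X T0 β xs t = x) := by
  induction t generalizing c with
  | var b =>
    refine ⟨fun M T p ws w => I.eqv (cs b) c M T p (ws b) w, fun p ws w => I.fd_eqv _ _ p _ w, ?_⟩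
    intro X T0 M T p ρ hR ws w xs x h1 h2
    exact hR.eqv (h1 b) h2
  | @func m f ts ih =>
    choose Q hQ1 hQ2 using ih
    refine ⟨fun M T p ws w => ∃ ds : Fin m → S, ∃ b : Fin m × Fin A → M,
      (∀ i, I.dom (ds i) M T p (fun j => b (i, j))) ∧
      (∀ i, Q i (ds i) M T p ws (fun j => b (i, j))) ∧
      I.fn f ds c M T p (fun i j => b (i, j)) w, ?_, ?_⟩
    · intro α p ws w
      refine FD.fin' fun ds => FD.ex (P := fun M T v b =>
        (∀ i, I.dom (ds i) M T (fun i => v (p i)) (fun j => b (i, j))) ∧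
        (∀ i, Q i (ds i) M T (fun i => v (p i)) (fun b j => v (ws b j)) (fun j => b (i, j))) ∧
        I.fn f ds c M T (fun i => v (p i)) (fun i j => b (i, j)) (fun j => v (w j))) ?_
      refine FD.and (FD.fin fun i => ?_) (FD.and (FD.fin fun i => ?_) ?_)
      · exact I.fd_dom (ds i) (fun i => Sum.inl (p i)) (fun j => Sum.inr (i, j))
      · exact hQ1 i (ds i) (fun i => Sum.inl (p i)) (fun b j => Sum.inl (ws b j))
          (fun j => Sum.inr (i, j))
      · exact I.fd_fn f ds c (fun i => Sum.inl (p i)) (fun i j => Sum.inr (i, j))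
          (fun j => Sum.inl (w j))
    · intro X T0 M T p ρ hR ws w xs x h1 h2
      constructor
      · rintro ⟨ds, b, h3, h4, h5⟩
        choose ys hys using fun i => (hR.dom _ _).1 (h3 i)
        have h6 : ∀ i, @Term.realize L X T0 β xs (ts i) = ys i := fun i =>
          (hQ2 i (ds i) X T0 M T p ρ hR ws _ xs (ys i) h1 (hys i)).1 (h4 i)
        have h7 := (hR.fn f ds c _ w ys x hys h2).1 h5
        rw [Term.realize]
        rw [← h7]
        congr 1
        exact funext h6
      · intro h3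
        choose ds us hus using fun i => hR.ex (@Term.realize L X T0 β xs (ts i))
        refine ⟨ds, fun q => us q.1 q.2, fun i => (hR.dom _ _).2 ⟨_, hus i⟩, fun i => ?_, ?_⟩
        · exact (hQ2 i (ds i) X T0 M T p ρ hR ws _ xs _ h1 (hus i)).2 rfl
        · refine (hR.fn f ds c _ w _ x hus h2).2 ?_
          rw [← h3]
          rfl

/-- extend an assignment by a last variable -/
def sn {Z : Type} {β : Type} {n : ℕ} (f : β ⊕ Fin n → Z) (z : Z) : β ⊕ Fin (n + 1) → Z :=
  Sum.elim (fun b => f (Sum.inl b)) (Fin.snoc (α := fun _ => Z) (fun i => f (Sum.inr i)) z)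

theorem sn_map {Z Y : Type} {β : Type} {n : ℕ} (g : Z → Y) (f : β ⊕ Fin n → Z) (z : Z)
    (b : β ⊕ Fin (n + 1)) : g (sn f z b) = sn (fun b => g (f b)) (g z) b := by
  rcases b with b | i
  · rfl
  · refine Fin.lastCases ?_ (fun i => ?_) i
    · simp [sn]
    · simp [sn]

theorem sn_rel {Z Y W : Type} {β : Type} {n : ℕ} {r : Z → Y → W → Prop} {f : β ⊕ Fin n → Z}
    {g : β ⊕ Fin n → Y} {h : β ⊕ Fin n → W} {z : Z} {y : Y} {w : W} (h1 : ∀ b, r (f b) (g b) (h b))
    (h2 : r z y w) (b : β ⊕ Fin (n + 1)) : r (sn f z b) (sn g y b) (sn h w b) := by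
  rcases b with b | i
  · exact h1 _
  · refine Fin.lastCases ?_ (fun i => ?_) i
    · simpa [sn] using h2
    · simpa [sn] using h1 (Sum.inr i)

theorem form_tr [Finite S] (I : Itp L L' S A κ) {β : Type} {n : ℕ} (φ : L.BoundedFormula β n)
    (cs : β ⊕ Fin n → S) :
    ∃ Q : ∀ M : Type, L'.Structure M → (κ → M) → (β ⊕ Fin n → Fin A → M) → Prop,
      (∀ {α : Type} (p : κ → α) (ws : β ⊕ Fin n → Fin A → α),
        FD (fun M T v => Q M T (fun i => v (p i)) (fun b j => v (ws b j)))) ∧
      ∀ (X : Type) (T0 : L.Structure X) (M : Type) (T : L'.Structure M) (p : κ → M)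
        (ρ : S → (Fin A → M) → X → Prop), Rep I X T0 M T p ρ →
        ∀ (ws : β ⊕ Fin n → Fin A → M) (xs : β ⊕ Fin n → X),
          (∀ b, ρ (cs b) (ws b) (xs b)) →
          (Q M T p ws ↔ @BoundedFormula.Realize L X T0 β n φ (fun b => xs (Sum.inl b))
            (fun i => xs (Sum.inr i))) := by
  induction φ with
  | falsum =>
    exact ⟨fun _ _ _ _ => False, fun p ws => FD.const False, fun X T0 M T p ρ hR ws xs h1 => Iff.rfl⟩
  | @equal n t1 t2 =>
    choose Q1 hA1 hB1 using fun c => term_tr I t1 cs c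
    choose Q2 hA2 hB2 using fun c => term_tr I t2 cs c
    refine ⟨fun M T p ws => ∃ c : S, ∃ u : Fin A → M, I.dom c M T p u ∧ Q1 c M T p ws u ∧
      Q2 c M T p ws u, ?_, ?_⟩
    · intro α p ws
      refine FD.fin' fun c => FD.ex (P := fun M T v u =>
        I.dom c M T (fun i => v (p i)) u ∧ Q1 c M T (fun i => v (p i)) (fun b j => v (ws b j)) u ∧
        Q2 c M T (fun i => v (p i)) (fun b j => v (ws b j)) u) ?_
      exact (I.fd_dom c (fun i => Sum.inl (p i)) (fun j => Sum.inr j)).and
        ((hA1 c (fun i => Sum.inl (p i)) (fun b j => Sum.inl (ws b j)) (fun j => Sum.inr j)).and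
          (hA2 c (fun i => Sum.inl (p i)) (fun b j => Sum.inl (ws b j)) (fun j => Sum.inr j)))
    · intro X T0 M T p ρ hR ws xs h1
      have e : Sum.elim (fun b => xs (Sum.inl b)) (fun i => xs (Sum.inr i)) = xs :=
        Sum.elim_comp_inl_inr xs
      rw [BoundedFormula.Realize, e]
      constructor
      · rintro ⟨c, u, h2, h3, h4⟩
        obtain ⟨x, hx⟩ := (hR.dom _ _).1 h2
        rw [(hB1 c X T0 M T p ρ hR ws u xs x h1 hx).1 h3,
          (hB2 c X T0 M T p ρ hR ws u xs x h1 hx).1 h4]
      · intro h2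
        obtain ⟨c, u, hu⟩ := hR.ex (@Term.realize L X T0 _ xs t1)
        exact ⟨c, u, (hR.dom _ _).2 ⟨_, hu⟩, (hB1 c X T0 M T p ρ hR ws u xs _ h1 hu).2 rfl,
          (hB2 c X T0 M T p ρ hR ws u xs _ h1 hu).2 h2.symm⟩
  | @rel n m R ts =>
    choose Q hA hB using fun i c => term_tr I (ts i) cs c
    refine ⟨fun M T p ws => ∃ ds : Fin m → S, ∃ b : Fin m × Fin A → M,
      (∀ i, I.dom (ds i) M T p (fun j => b (i, j))) ∧
      (∀ i, Q i (ds i) M T p ws (fun j => b (i, j))) ∧
      I.rel R ds M T p (fun i j => b (i, j)), ?_, ?_⟩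
    · intro α p ws
      refine FD.fin' fun ds => FD.ex (P := fun M T v b =>
        (∀ i, I.dom (ds i) M T (fun i => v (p i)) (fun j => b (i, j))) ∧
        (∀ i, Q i (ds i) M T (fun i => v (p i)) (fun b j => v (ws b j)) (fun j => b (i, j))) ∧
        I.rel R ds M T (fun i => v (p i)) (fun i j => b (i, j))) ?_
      refine FD.and (FD.fin fun i => ?_) (FD.and (FD.fin fun i => ?_) ?_)
      · exact I.fd_dom (ds i) (fun i => Sum.inl (p i)) (fun j => Sum.inr (i, j))
      · exact hA i (ds i) (fun i => Sum.inl (p i)) (fun b j => Sum.inl (ws b j))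
          (fun j => Sum.inr (i, j))
      · exact I.fd_rel R ds (fun i => Sum.inl (p i)) (fun i j => Sum.inr (i, j))
    · intro X T0 M T p ρ hR ws xs h1
      have e : Sum.elim (fun b => xs (Sum.inl b)) (fun i => xs (Sum.inr i)) = xs :=
        Sum.elim_comp_inl_inr xs
      rw [BoundedFormula.Realize, e]
      constructor
      · rintro ⟨ds, b, h3, h4, h5⟩
        choose ys hys using fun i => (hR.dom _ _).1 (h3 i)
        have h6 : ∀ i, @Term.realize L X T0 _ xs (ts i) = ys i := fun i =>
          (hB i (ds i) X T0 M T p ρ hR ws _ xs (ys i) h1 (hys i)).1 (h4 i)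
        have h7 := (hR.rel R ds _ ys hys).1 h5
        rw [show (fun i => @Term.realize L X T0 _ xs (ts i)) = ys from funext h6]
        exact h7
      · intro h3
        choose ds us hus using fun i => hR.ex (@Term.realize L X T0 _ xs (ts i))
        refine ⟨ds, fun q => us q.1 q.2, fun i => (hR.dom _ _).2 ⟨_, hus i⟩, fun i => ?_, ?_⟩
        · exact (hB i (ds i) X T0 M T p ρ hR ws _ xs _ h1 (hus i)).2 rfl
        · exact (hR.rel R ds _ _ hus).2 h3
  | @imp n φ1 φ2 ih1 ih2 =>
    obtain ⟨Q1, hA1, hB1⟩ := ih1 cs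
    obtain ⟨Q2, hA2, hB2⟩ := ih2 cs
    refine ⟨fun M T p ws => Q1 M T p ws → Q2 M T p ws, fun p ws => (hA1 p ws).imp (hA2 p ws), ?_⟩
    intro X T0 M T p ρ hR ws xs h1
    exact imp_congr (hB1 X T0 M T p ρ hR ws xs h1) (hB2 X T0 M T p ρ hR ws xs h1)
  | @all n φ ih =>
    choose Q hA hB using fun c => ih (sn cs c)
    refine ⟨fun M T p ws => ∀ c : S, ∀ u : Fin A → M, I.dom c M T p u → Q c M T p (sn ws u),
      ?_, ?_⟩
    · intro α p ws
      refine FD.fin fun c => FD.all (P := fun M T v u => I.dom c M T (fun i => v (p i)) u →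
        Q c M T (fun i => v (p i)) (sn (fun b j => v (ws b j)) u)) ?_
      refine (I.fd_dom c (fun i => Sum.inl (p i)) (fun j => Sum.inr j)).imp ?_
      refine (hA c (fun i => Sum.inl (p i))
        (sn (fun b j => Sum.inl (ws b j)) (fun j => Sum.inr j))).congr fun M T v => ?_
      have : (fun b j => v (sn (fun b j => (Sum.inl (ws b j) : α ⊕ Fin A))
          (fun j => Sum.inr j) b j)) =
          sn (fun b j => v (Sum.inl (ws b j))) (fun j => v (Sum.inr j)) := by
        funext b
        exact sn_map (fun (w : Fin A → α ⊕ Fin A) => fun j => v (w j)) _ _ b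
      rw [this]
    · intro X T0 M T p ρ hR ws xs h1
      rw [BoundedFormula.Realize]
      constructor
      · intro h2 x
        obtain ⟨c, u, hu⟩ := hR.ex x
        have h3 := (hB c X T0 M T p ρ hR (sn ws u) (sn xs x) (sn_rel h1 hu)).1
          (h2 c u ((hR.dom _ _).2 ⟨_, hu⟩))
        exact h3
      · intro h2 c u hu
        obtain ⟨x, hx⟩ := (hR.dom _ _).1 hu
        exact (hB c X T0 M T p ρ hR (sn ws u) (sn xs x) (sn_rel h1 hx)).2 (h2 x)

/-- translation of sentences -/
theorem sent_tr [Finite S] (I : Itp L L' S A κ) (φ : L.Sentence) :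
    ∃ Q : ∀ M : Type, L'.Structure M → (κ → M) → Prop,
      (∀ {α : Type} (p : κ → α), FD (fun M T v => Q M T (fun i => v (p i)))) ∧
      ∀ (X : Type) (T0 : L.Structure X) (M : Type) (T : L'.Structure M) (p : κ → M)
        (ρ : S → (Fin A → M) → X → Prop), Rep I X T0 M T p ρ →
          (Q M T p ↔ @Sentence.Realize L X T0 φ) := by
  obtain ⟨Q, hA, hB⟩ := form_tr I (β := Empty) (n := 0) φ
    (fun b => Sum.elim (fun x : Empty => x.elim) (fun i : Fin 0 => i.elim0) b)
  refine ⟨fun M T p => Q M T p (fun b => Sum.elim (fun x : Empty => x.elim)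
    (fun i : Fin 0 => i.elim0) b), ?_, ?_⟩
  · intro α p
    refine (hA p (fun b => Sum.elim (fun x : Empty => x.elim)
      (fun i : Fin 0 => i.elim0) b)).congr fun M T v => ?_
    have : (fun (b : Empty ⊕ Fin 0) (j : Fin A) => v (Sum.elim
        (fun x : Empty => (x.elim : Fin A → α)) (fun i : Fin 0 => i.elim0) b j)) =
        (fun b => Sum.elim (fun x : Empty => x.elim) (fun i : Fin 0 => i.elim0) b) := by
      funext b
      rcases b with b | b
      · exact b.elim
      · exact b.elim0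
    rw [this]
  · intro X T0 M T p ρ hR
    have h := hB X T0 M T p ρ hR (fun b => Sum.elim (fun x : Empty => x.elim)
      (fun i : Fin 0 => i.elim0) b) (fun b => Sum.elim (fun x : Empty => x.elim)
      (fun i : Fin 0 => i.elim0) b) (fun b => by
        rcases b with b | b
        · exact b.elim
        · exact b.elim0)
    refine h.trans ?_
    have e1 : (fun b : Empty => (Sum.elim (fun x : Empty => (x.elim : X))
      (fun i : Fin 0 => i.elim0) (Sum.inl b))) = default := Subsingleton.elim _ _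
    have e2 : (fun i : Fin 0 => (Sum.elim (fun x : Empty => (x.elim : X))
      (fun i : Fin 0 => i.elim0) (Sum.inr i))) = default := Subsingleton.elim _ _
    rw [e1, e2]
    exact Iff.rfl

end Pool.Agent.TH686.SP
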