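import Mathlib

set_option autoImplicit false

/-! A formula depends only on finitely many symbols. -/

namespace Pool.Agent.TH686.SP

open FirstOrder FirstOrder.Language

variable {L : FirstOrder.Language.{0, 0}}

/-- two structures agree on a set of function symbols -/
def AgF (F : Set (Σ m, L.Functions m)) (X : Type) (T T' : L.Structure X) : Prop :=
  ∀ q ∈ F, ∀ xs, @Structure.funMap L X T q.1 q.2 xs = @Structure.funMap L X T' q.1 q.2 xs

/-- two structures agree on a set of relation symbols -/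
def AgR (G : Set (Σ m, L.Relations m)) (X : Type) (T T' : L.Structure X) : Prop :=
  ∀ q ∈ G, ∀ xs, (@Structure.RelMap L X T q.1 q.2 xs ↔ @Structure.RelMap L X T' q.1 q.2 xs)

theorem loc_term {β : Type} (t : L.Term β) :
    ∃ F : Set (Σ m, L.Functions m), F.Finite ∧ ∀ (X : Type) (T T' : L.Structure X),
      AgF F X T T' → ∀ xs, @Term.realize L X T β xs t = @Term.realize L X T' β xs t := by
  induction t with
  | var b => exact ⟨∅, Set.finite_empty, fun X T T' _ xs => rfl⟩
  | @func m f ts ih =>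
    choose F hF1 hF2 using ih
    refine ⟨{⟨m, f⟩} ∪ ⋃ i, F i, (Set.finite_singleton _).union (Set.finite_iUnion hF1), ?_⟩
    intro X T T' h xs
    have h1 : ∀ i, @Term.realize L X T β xs (ts i) = @Term.realize L X T' β xs (ts i) := fun i =>
      hF2 i X T T' (fun q hq => h q (Or.inr (Set.mem_iUnion.2 ⟨i, hq⟩))) xs
    have h2 := h ⟨m, f⟩ (Or.inl rfl)
    show @Structure.funMap L X T m f _ = @Structure.funMap L X T' m f _
    rw [h2]
    congr 1
    exact funext h1

theorem loc_form {β : Type} {n : ℕ} (φ : L.BoundedFormula β n) :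
    ∃ (F : Set (Σ m, L.Functions m)) (G : Set (Σ m, L.Relations m)), F.Finite ∧ G.Finite ∧
      ∀ (X : Type) (T T' : L.Structure X), AgF F X T T' → AgR G X T T' →
        ∀ v xs, (@BoundedFormula.Realize L X T β n φ v xs ↔
          @BoundedFormula.Realize L X T' β n φ v xs) := by
  induction φ with
  | falsum => exact ⟨∅, ∅, Set.finite_empty, Set.finite_empty, fun X T T' _ _ v xs => Iff.rfl⟩
  | equal t1 t2 =>
    obtain ⟨F1, h1, h2⟩ := loc_term t1
    obtain ⟨F2, h3, h4⟩ := loc_term t2
    refine ⟨F1 ∪ F2, ∅, h1.union h3, Set.finite_empty, fun X T T' h5 _ v xs => ?_⟩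
    show (@Term.realize L X T _ (Sum.elim v xs) t1 = @Term.realize L X T _ (Sum.elim v xs) t2) ↔
      (@Term.realize L X T' _ (Sum.elim v xs) t1 = @Term.realize L X T' _ (Sum.elim v xs) t2)
    rw [h2 X T T' (fun q hq => h5 q (Or.inl hq)), h4 X T T' (fun q hq => h5 q (Or.inr hq))]
  | @rel n m R ts =>
    choose F h1 h2 using fun i => loc_term (ts i)
    refine ⟨⋃ i, F i, {⟨m, R⟩}, Set.finite_iUnion h1, Set.finite_singleton _,
      fun X T T' h5 h6 v xs => ?_⟩
    show @Structure.RelMap L X T m R (fun i => @Term.realize L X T _ (Sum.elim v xs) (ts i)) ↔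
      @Structure.RelMap L X T' m R (fun i => @Term.realize L X T' _ (Sum.elim v xs) (ts i))
    have h7 := h6 ⟨m, R⟩ rfl
    have h8 : (fun i => @Term.realize L X T _ (Sum.elim v xs) (ts i)) =
        fun i => @Term.realize L X T' _ (Sum.elim v xs) (ts i) := funext fun i =>
      h2 i X T T' (fun q hq => h5 q (Set.mem_iUnion.2 ⟨i, hq⟩)) _
    rw [h8]
    exact h7 _
  | imp φ1 φ2 ih1 ih2 =>
    obtain ⟨F1, G1, h1, h2, h3⟩ := ih1
    obtain ⟨F2, G2, h4, h5, h6⟩ := ih2
    refine ⟨F1 ∪ F2, G1 ∪ G2, h1.union h4, h2.union h5, fun X T T' h7 h8 v xs => ?_⟩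
    exact imp_congr (h3 X T T' (fun q hq => h7 q (Or.inl hq)) (fun q hq => h8 q (Or.inl hq)) v xs)
      (h6 X T T' (fun q hq => h7 q (Or.inr hq)) (fun q hq => h8 q (Or.inr hq)) v xs)
  | all φ ih =>
    obtain ⟨F1, G1, h1, h2, h3⟩ := ih
    refine ⟨F1, G1, h1, h2, fun X T T' h7 h8 v xs => ?_⟩
    exact forall_congr' fun x => h3 X T T' h7 h8 v _

theorem loc_sent (φ : L.Sentence) :
    ∃ (F : Set (Σ m, L.Functions m)) (G : Set (Σ m, L.Relations m)), F.Finite ∧ G.Finite ∧
      ∀ (X : Type) (T T' : L.Structure X), AgF F X T T' → AgR G X T T' →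
        (@Sentence.Realize L X T φ ↔ @Sentence.Realize L X T' φ) := by
  obtain ⟨F, G, h1, h2, h3⟩ := loc_form φ
  exact ⟨F, G, h1, h2, fun X T T' h4 h5 => h3 X T T' h4 h5 default default⟩

/-- the symbols used by a sentence can be numbered and their arities are bounded -/
theorem loc_num (φ : L.Sentence) : ∃ (k q : ℕ) (rn : ∀ m, L.Relations m → Option (Fin q))
    (fn : ∀ m, L.Functions m → Option (Fin q)), 0 < k ∧
    (∀ m R, (rn m R).isSome → m ≤ k) ∧ (∀ m f, (fn m f).isSome → m < k) ∧
    (∀ m R m' R' j, rn m R = some j → rn m' R' = some j →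
      (⟨m, R⟩ : Σ m, L.Relations m) = ⟨m', R'⟩) ∧
    (∀ m f m' f' j, fn m f = some j → fn m' f' = some j →
      (⟨m, f⟩ : Σ m, L.Functions m) = ⟨m', f'⟩) ∧
    (∀ m R m' f' j, rn m R = some j → fn m' f' ≠ some j) ∧
      ∀ (X : Type) (T T' : L.Structure X),
        (∀ m f, (fn m f).isSome → ∀ xs, @Structure.funMap L X T m f xs =
          @Structure.funMap L X T' m f xs) →
        (∀ m R, (rn m R).isSome → ∀ xs, (@Structure.RelMap L X T m R xs ↔
          @Structure.RelMap L X T' m R xs)) →
        (@Sentence.Realize L X T φ ↔ @Sentence.Realize L X T' φ) := by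
  classical
  obtain ⟨F, G, hF, hG, h⟩ := loc_sent φ
  have := hF.fintype
  have := hG.fintype
  let e := Fintype.equivFin (G ⊕ F)
  refine ⟨(∑ x : G, x.1.1) + (∑ x : F, x.1.1) + 1, Fintype.card (G ⊕ F),
    fun m R => if hR : (⟨m, R⟩ : Σ m, L.Relations m) ∈ G then some (e (Sum.inl ⟨_, hR⟩)) else none,
    fun m f => if hf : (⟨m, f⟩ : Σ m, L.Functions m) ∈ F then some (e (Sum.inr ⟨_, hf⟩)) else none,
    Nat.succ_pos _, ?_, ?_, ?_, ?_, ?_, ?_⟩
  · intro m R hs
    by_cases hR : (⟨m, R⟩ : Σ m, L.Relations m) ∈ G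
    · have := Finset.single_le_sum (f := fun x : G => x.1.1) (fun _ _ => Nat.zero_le _)
        (Finset.mem_univ (⟨_, hR⟩ : G))
      simp only at this
      omega
    · simp [hR] at hs
  · intro m f hs
    by_cases hf : (⟨m, f⟩ : Σ m, L.Functions m) ∈ F
    · have := Finset.single_le_sum (f := fun x : F => x.1.1) (fun _ _ => Nat.zero_le _)
        (Finset.mem_univ (⟨_, hf⟩ : F))
      simp only at this
      omega
    · simp [hf] at hs
  · intro m R m' R' j h1 h2
    beta_reduce at h1 h2
    by_cases hR : (⟨m, R⟩ : Σ m, L.Relations m) ∈ G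
    · by_cases hR' : (⟨m', R'⟩ : Σ m, L.Relations m) ∈ G
      · rw [dif_pos hR] at h1
        rw [dif_pos hR'] at h2
        have := e.injective (Option.some_injective _ (h1.trans h2.symm))
        exact congrArg Subtype.val (Sum.inl_injective this)
      · rw [dif_neg hR'] at h2
        cases h2
    · rw [dif_neg hR] at h1
      cases h1
  · intro m R m' R' j h1 h2
    beta_reduce at h1 h2
    by_cases hR : (⟨m, R⟩ : Σ m, L.Functions m) ∈ F
    · by_cases hR' : (⟨m', R'⟩ : Σ m, L.Functions m) ∈ F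
      · rw [dif_pos hR] at h1
        rw [dif_pos hR'] at h2
        have := e.injective (Option.some_injective _ (h1.trans h2.symm))
        exact congrArg Subtype.val (Sum.inr_injective this)
      · rw [dif_neg hR'] at h2
        cases h2
    · rw [dif_neg hR] at h1
      cases h1
  · intro m R m' f' j h1 h2
    beta_reduce at h1 h2
    by_cases hR : (⟨m, R⟩ : Σ m, L.Relations m) ∈ G
    · by_cases hf : (⟨m', f'⟩ : Σ m, L.Functions m) ∈ F
      · rw [dif_pos hR] at h1
        rw [dif_pos hf] at h2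
        have := e.injective (Option.some_injective _ (h1.trans h2.symm))
        cases this
      · rw [dif_neg hf] at h2
        cases h2
    · rw [dif_neg hR] at h1
      cases h1
  · intro X T T' h1 h2
    refine h X T T' (fun q hq xs => h1 q.1 q.2 ?_ xs) (fun q hq xs => h2 q.1 q.2 ?_ xs)
    · simp [hq]
    · simp [hq]

end Pool.Agent.TH686.SP
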