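import Pool.Agent.TH686.SP.Pos

set_option autoImplicit false

/-! The main coding theorem for spectra. -/

namespace Pool.Agent.TH686.SP

open FirstOrder FirstOrder.Language

/-- a number as an index below `k` -/
def ck {k : ℕ} (hk : 0 < k) (i : ℕ) : Fin k := if h : i < k then ⟨i, h⟩ else ⟨0, hk⟩

theorem ck_of {k : ℕ} (hk : 0 < k) {i : ℕ} (h : i < k) : ck hk i = ⟨i, h⟩ := dif_pos h

/-- the coded relation number `j` -/
def TupR {M : Type} (P : M → M → Prop) {k q K : ℕ} (π : Fin (K + 2) → M)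
    (σ : Fin k ⊕ Fin q ≃ Fin (K + 1)) (hk : 0 < k) (j : Fin q) {m : ℕ} (u : Fin m → M) : Prop :=
  ∃ d0, St P π d0 ∧ (∀ i : Fin m, Cv P π d0 (σ (Sum.inl (ck hk i.1))) (u i)) ∧
    Bt P π d0 (σ (Sum.inr j))

variable {k q K : ℕ} (σ : Fin k ⊕ Fin q ≃ Fin (K + 1)) (hk : 0 < k)

theorem fd_TupR {α : Type} (p : Fin (K + 2) → α) (j : Fin q) {m : ℕ} (u : Fin m → α) :
    FD (fun M S v => TupR (rl M S) (fun i => v (p i)) σ hk j (fun i => v (u i))) :=
  FD.ex1 (P := fun M S v d0 => St (rl M S) (fun i => v (p i)) d0 ∧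
      (∀ i : Fin m, Cv (rl M S) (fun i => v (p i)) d0 (σ (Sum.inl (ck hk i.1))) (v (u i))) ∧
      Bt (rl M S) (fun i => v (p i)) d0 (σ (Sum.inr j)))
    ((fd_St (fun i => Sum.inl (p i)) (Sum.inr ())).and
      ((FD.fin fun i => fd_Cv (fun i => Sum.inl (p i)) (Sum.inr ()) (Sum.inl (u i)) _).and
        (fd_Bt (fun i => Sum.inl (p i)) (Sum.inr ()) _)))

theorem snoc_map {Z Y : Type} {m : ℕ} (g : Z → Y) (f : Fin m → Z) (z : Z) :
    (fun i => g ((Fin.snoc (α := fun _ => Z) f z : Fin (m + 1) → Z) i)) =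
      (Fin.snoc (α := fun _ => Y) (fun i => g (f i)) (g z) : Fin (m + 1) → Y) := by
  funext i
  refine Fin.lastCases ?_ (fun i => ?_) i
  · simp
  · simp

variable {L : FirstOrder.Language.{0, 0}} (rn : ∀ m, L.Relations m → Option (Fin q))
  (fnn : ∀ m, L.Functions m → Option (Fin q))

/-- the interpretation of the coded structure -/
def I0 : Itp L LP Unit 1 (Fin (K + 2) ⊕ Unit) where
  dom _ M T p w := El (rl M T) (fun i => p (Sum.inl i)) (w 0)
  eqv _ _ M T p w w' := w 0 = w' 0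
  rel {m} R _ M T p ws := ∃ j, rn m R = some j ∧
    TupR (rl M T) (fun i => p (Sum.inl i)) σ hk j (fun i => ws i 0)
  fn {m} f _ _ M T p ws w := (∃ j, fnn m f = some j ∧
    TupR (rl M T) (fun i => p (Sum.inl i)) σ hk j
      (Fin.snoc (α := fun _ => M) (fun i => ws i 0) (w 0) : Fin (m + 1) → M)) ∨
    (fnn m f = none ∧ w 0 = p (Sum.inr ()))
  fd_dom _ {α} p w := fd_El (fun i => p (Sum.inl i)) (w 0)
  fd_eqv _ _ {α} p w w' := FD.eq (w 0) (w' 0)
  fd_rel {m} R _ {α} p ws := FD.fin' fun j => (FD.const _).and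
    (fd_TupR σ hk (fun i => p (Sum.inl i)) j (fun i => ws i 0))
  fd_fn {m} f _ _ {α} p ws w := by
    refine FD.or (FD.fin' fun j => (FD.const _).and ?_) ((FD.const _).and (FD.eq _ _))
    refine (fd_TupR σ hk (fun i => p (Sum.inl i)) j
      (Fin.snoc (α := fun _ => α) (fun i => ws i 0) (w 0) : Fin (m + 1) → α)).congr
      fun M S v => ?_
    rw [snoc_map v (fun i => ws i 0) (w 0)]

/-- the coded functions are functions -/
def FunAx (M : Type) (T : LP.Structure M) (p : Fin (K + 2) → M) : Prop :=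
  ∀ (j : Fin q) (m : Fin k), (∃ f : L.Functions m.1, fnn m.1 f = some j) →
    ∀ u : Fin m.1 → M, (∀ i, El (rl M T) p (u i)) → ∃! b, El (rl M T) p b ∧
      TupR (rl M T) p σ hk j (Fin.snoc (α := fun _ => M) u b : Fin (m.1 + 1) → M)

theorem fd_FunAx {α : Type} (p : Fin (K + 2) → α) :
    FD (fun M S v => FunAx (L := L) σ hk fnn M S (fun i => v (p i))) := by
  refine FD.fin fun j => FD.fin fun m => (FD.const _).imp ?_
  refine FD.all (P := fun M S v u => (∀ i, El (rl M S) (fun i => v (p i)) (u i)) →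
    ∃! b, El (rl M S) (fun i => v (p i)) b ∧
      TupR (rl M S) (fun i => v (p i)) σ hk j
        (Fin.snoc (α := fun _ => M) u b : Fin (m.1 + 1) → M)) ?_
  refine (FD.fin fun i => fd_El (fun i => Sum.inl (p i)) (Sum.inr i)).imp ?_
  refine fd_eu (P := fun M S v b => El (rl M S) (fun i => v (Sum.inl (p i))) b ∧
      TupR (rl M S) (fun i => v (Sum.inl (p i))) σ hk j
        (Fin.snoc (α := fun _ => M) (fun i => v (Sum.inr i)) b : Fin (m.1 + 1) → M)) ?_
  refine (fd_El (fun i => Sum.inl (Sum.inl (p i))) (Sum.inr ())).and ?_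
  refine (fd_TupR σ hk (fun i => Sum.inl (Sum.inl (p i))) j
      (Fin.snoc (α := fun _ => (α ⊕ Fin m.1) ⊕ Unit) (fun i => Sum.inl (Sum.inr i))
        (Sum.inr ()) : Fin (m.1 + 1) → (α ⊕ Fin m.1) ⊕ Unit)).congr fun M S v => ?_
  rw [snoc_map v (fun i => Sum.inl (Sum.inr i)) (Sum.inr ())]

/-- from a coded structure to a structure -/
theorem rep_down (hfk : ∀ m f, (fnn m f).isSome → m < k) {M : Type} {T : LP.Structure M}
    {p : Fin (K + 2) ⊕ Unit → M} (he : El (rl M T) (fun i => p (Sum.inl i)) (p (Sum.inr ())))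
    (hf : FunAx (L := L) σ hk fnn M T (fun i => p (Sum.inl i))) :
    ∃ T0 : L.Structure {x // El (rl M T) (fun i => p (Sum.inl i)) x},
      Rep (I0 σ hk rn fnn) _ T0 M T p (fun _ w x => w 0 = x.1) := by
  classical
  have hex : ∀ {m : ℕ} (f : L.Functions m)
      (xs : Fin m → {x // El (rl M T) (fun i => p (Sum.inl i)) x}),
      ∃! y : {x // El (rl M T) (fun i => p (Sum.inl i)) x},
        (I0 (K := K) σ hk rn fnn).fn f (fun _ => ()) () M T p (fun i _ => (xs i).1)
          (fun _ => y.1) := by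
    intro m f xs
    rcases h : fnn m f with _ | j
    · refine ⟨⟨_, he⟩, Or.inr ⟨h, rfl⟩, ?_⟩
      rintro ⟨y, hy⟩ (⟨j, h1, _⟩ | ⟨_, h2⟩)
      · rw [h] at h1
        cases h1
      · exact Subtype.ext h2
    · obtain ⟨y, ⟨h1, h2⟩, h3⟩ := hf j ⟨m, hfk m f (by rw [h]; rfl)⟩ ⟨f, h⟩ (fun i => (xs i).1)
        fun i => (xs i).2
      refine ⟨⟨y, h1⟩, Or.inl ⟨j, h, h2⟩, ?_⟩
      rintro ⟨z, hz⟩ (⟨j', h4, h5⟩ | ⟨h4, _⟩)
      · rw [h] at h4
        cases h4
        exact Subtype.ext (h3 z ⟨hz, h5⟩)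
      · rw [h] at h4
        cases h4
  choose F hF1 hF2 using @hex
  refine ⟨{ funMap := fun {m} f xs => F f xs
            RelMap := fun {m} R xs => (I0 (K := K) σ hk rn fnn).rel R (fun _ => ()) M T p
              (fun i _ => (xs i).1) }, ?_⟩
  refine ⟨fun x => ⟨(), fun _ => x.1, rfl⟩, fun c w => ?_, ?_, ?_, ?_⟩
  · exact ⟨fun h => ⟨⟨w 0, h⟩, rfl⟩, fun ⟨x, hx⟩ => by
      show El (rl M T) (fun i => p (Sum.inl i)) (w 0)
      rw [hx]
      exact x.2⟩
  · intro c c' w w' x x' h1 h2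
    show w 0 = w' 0 ↔ _
    rw [h1, h2]
    exact ⟨fun h => Subtype.ext h, fun h => congrArg _ h⟩
  · intro m R cs ws xs h
    show (∃ j, rn m R = some j ∧ _) ↔ (∃ j, rn m R = some j ∧ _)
    have e : (fun i => ws i 0) = fun i => (xs i).1 := funext h
    rw [e]
  · intro m f cs c ws w xs x h1 h2
    have e : (I0 (K := K) σ hk rn fnn).fn f cs c M T p ws w ↔
        (I0 (K := K) σ hk rn fnn).fn f (fun _ => ()) () M T p (fun i _ => (xs i).1)
          (fun _ => x.1) := by
      show ((∃ j, fnn m f = some j ∧ _) ∨ _) ↔ ((∃ j, fnn m f = some j ∧ _) ∨ _)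
      have e1 : (fun i => ws i 0) = fun i => (xs i).1 := funext h1
      have e2 : w 0 = x.1 := h2
      rw [e1, e2]
    rw [e]
    exact ⟨fun h => (hF2 f xs x h).symm, fun h => by
      have : F f xs = x := h
      rw [← this]
      exact hF1 f xs⟩

/-- the exact size of the code -/
def sz (k K n : ℕ) : ℕ := (K + 2) + n + 3 * (n ^ k * (K + 1))

theorem sz_mono (k K : ℕ) : StrictMono (sz k K) := by
  intro a b h
  unfold sz
  have := Nat.mul_le_mul_right (K + 1) (Nat.pow_le_pow_left h.le k)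
  omega

open Classical in
/-- every structure is coded -/
theorem rep_up {X : Type} [Finite X] (T0 : L.Structure X) (x0 : X)
    (hrk : ∀ m R, (rn m R).isSome → m ≤ k) (hfk : ∀ m f, (fnn m f).isSome → m < k)
    (hu1 : ∀ m R m' R' j, rn m R = some j → rn m' R' = some j →
      (⟨m, R⟩ : Σ m, L.Relations m) = ⟨m', R'⟩)
    (hu2 : ∀ m f m' f' j, fnn m f = some j → fnn m' f' = some j →
      (⟨m, f⟩ : Σ m, L.Functions m) = ⟨m', f'⟩)
    (hu3 : ∀ m R m' f' j, rn m R = some j → fnn m' f' ≠ some j) :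
    ∃ (S : LP.Structure (Nd k K X)) (T1 : L.Structure X) (p : Fin (K + 2) ⊕ Unit → Nd k K X),
      Dim2 (rl _ S) ∧ Shape (rl _ S) (fun i => p (Sum.inl i)) σ ∧
      El (rl _ S) (fun i => p (Sum.inl i)) (p (Sum.inr ())) ∧
      FunAx (L := L) σ hk fnn _ S (fun i => p (Sum.inl i)) ∧
      (∀ m f, (fnn m f).isSome → ∀ xs, @Structure.funMap L X T1 m f xs =
          @Structure.funMap L X T0 m f xs) ∧
      (∀ m R, (rn m R).isSome → ∀ xs, (@Structure.RelMap L X T1 m R xs ↔
          @Structure.RelMap L X T0 m R xs)) ∧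
      Rep (I0 σ hk rn fnn) X T1 _ S p (fun _ w x => w 0 = Nd.el x) := by
  have := Fintype.ofFinite X
  let e1 := Fintype.equivFin X
  let e2 := Fintype.equivFin (Fin k → X)
  let rk : X → ℕ := fun x => (e1 x).1
  let rt : (Fin k → X) → ℕ := fun t => (e2 t).1
  have hrk1 : Function.Injective rk := fun x y h => e1.injective (Fin.ext h)
  have hrt1 : Function.Injective rt := fun x y h => e2.injective (Fin.ext h)
  let b : (Fin k → X) → Fin q → Prop := fun t j =>
    (∃ (m : ℕ) (R : L.Relations m), rn m R = some j ∧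
      @Structure.RelMap L X T0 m R (fun i => t (ck hk i.1))) ∨
    (∃ (m : ℕ) (f : L.Functions m), fnn m f = some j ∧
      @Structure.funMap L X T0 m f (fun i => t (ck hk i.1)) = t (ck hk m))
  let B : ℕ := Fintype.card X
  have hB : ∀ x, rk x < B := fun x => (e1 x).2
  let π : Fin (K + 2) → Nd k K X := Nd.pv
  have hT : ∀ (j : Fin q) {m : ℕ} (xs : Fin m → X), m ≤ k →
      (TupR (PO σ rk rt b B) π σ hk j (fun i => (Nd.el (xs i) : Nd k K X)) ↔
        ∃ t : Fin k → X, (∀ i : Fin m, xs i = t (ck hk i.1)) ∧ b t j) := by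
    intro j m xs hm
    constructor
    · rintro ⟨d0, h1, h2, h3⟩
      obtain ⟨t, rfl⟩ := (cSt hrt1).1 h1
      refine ⟨t, fun i => ?_, (cBt hrt1 hB hk).1 h3⟩
      have := (cCv hrk1 hrt1).1 (h2 i)
      rwa [Nd.el.injEq] at this
    · rintro ⟨t, h1, h2⟩
      refine ⟨Nd.dl t 0, (cSt hrt1).2 ⟨t, rfl⟩, fun i => (cCv hrk1 hrt1).2 ?_,
        (cBt hrt1 hB hk).2 h2⟩
      exact congrArg Nd.el (h1 i)
  have hext : ∀ {m : ℕ} (xs : Fin m → X), m ≤ k → ∃ t : Fin k → X,
      ∀ i : Fin m, xs i = t (ck hk i.1) := by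
    intro m xs hm
    refine ⟨fun c => if h : c.1 < m then xs ⟨c.1, h⟩ else x0, fun i => ?_⟩
    rw [ck_of hk (lt_of_lt_of_le i.2 hm)]
    simp
  have hbR : ∀ {m : ℕ} (R : L.Relations m) (j : Fin q) (t : Fin k → X), rn m R = some j →
      (b t j ↔ @Structure.RelMap L X T0 m R (fun i => t (ck hk i.1))) := by
    intro m R j t h
    constructor
    · rintro (⟨m', R', h1, h2⟩ | ⟨m', f', h1, _⟩)
      · have e := hu1 m R m' R' j h h1
        cases e
        exact h2
      · exact absurd h1 (hu3 m R m' f' j h)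
    · exact fun h1 => Or.inl ⟨m, R, h, h1⟩
  have hbF : ∀ {m : ℕ} (f : L.Functions m) (j : Fin q) (t : Fin k → X), fnn m f = some j →
      (b t j ↔ @Structure.funMap L X T0 m f (fun i => t (ck hk i.1)) = t (ck hk m)) := by
    intro m f j t h
    constructor
    · rintro (⟨m', R', h1, h2⟩ | ⟨m', f', h1, h2⟩)
      · exact absurd h (hu3 m' R' m f j h1)
      · have e := hu2 m f m' f' j h h1
        cases e
        exact h2
    · exact fun h1 => Or.inr ⟨m, f, h, h1⟩
  have hTR : ∀ {m : ℕ} (R : L.Relations m) (j : Fin q) (xs : Fin m → X), rn m R = some j →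
      (TupR (PO σ rk rt b B) π σ hk j (fun i => (Nd.el (xs i) : Nd k K X)) ↔
        @Structure.RelMap L X T0 m R xs) := by
    intro m R j xs h
    have hm : m ≤ k := hrk m R (by rw [h]; rfl)
    rw [hT j xs hm]
    constructor
    · rintro ⟨t, h1, h2⟩
      rw [show xs = fun i => t (ck hk i.1) from funext h1]
      exact (hbR R j t h).1 h2
    · intro h1
      obtain ⟨t, ht⟩ := hext xs hm
      refine ⟨t, ht, (hbR R j t h).2 ?_⟩
      rw [← show xs = fun i => t (ck hk i.1) from funext ht]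
      exact h1
  have hTF : ∀ {m : ℕ} (f : L.Functions m) (j : Fin q) (xs : Fin m → X) (x : X),
      fnn m f = some j →
      (TupR (PO σ rk rt b B) π σ hk j (Fin.snoc (α := fun _ => Nd k K X)
          (fun i => (Nd.el (xs i) : Nd k K X)) (Nd.el x) : Fin (m + 1) → Nd k K X) ↔
        @Structure.funMap L X T0 m f xs = x) := by
    intro m f j xs x h
    have hm : m < k := hfk m f (by rw [h]; rfl)
    rw [← snoc_map (fun x => (Nd.el x : Nd k K X)) xs x, hT j _ hm]
    constructor
    · rintro ⟨t, h1, h2⟩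
      have h3 := (hbF f j t h).1 h2
      have h4 : x = t (ck hk m) := by
        have := h1 (Fin.last m)
        simpa using this
      have h5 : xs = fun i => t (ck hk i.1) := by
        funext i
        have := h1 i.castSucc
        simpa using this
      rw [h4, h5]
      exact h3
    · intro h1
      obtain ⟨t, ht⟩ := hext (Fin.snoc (α := fun _ => X) xs x : Fin (m + 1) → X) hm
      refine ⟨t, ht, (hbF f j t h).2 ?_⟩
      have h4 : x = t (ck hk m) := by
        have := ht (Fin.last m)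
        simpa using this
      have h5 : xs = fun i => t (ck hk i.1) := by
        funext i
        have := ht i.castSucc
        simpa using this
      rw [← h4, ← h5]
      exact h1
  let T1 : L.Structure X :=
    { funMap := fun {m} f xs => if (fnn m f).isSome then @Structure.funMap L X T0 m f xs else x0
      RelMap := fun {m} R xs => (rn m R).isSome ∧ @Structure.RelMap L X T0 m R xs }
  refine ⟨ofl (PO σ rk rt b B), T1, Sum.elim π (fun _ => Nd.el x0), ?_, cShape hrk1 hrt1,
    cEl.2 ⟨x0, rfl⟩, ?_, ?_, ?_, ?_⟩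
  · refine ⟨o1 rk rt, o2 σ rk rt b B, ?_, ?_, fun x y => Iff.rfl⟩
    · exact { trichotomous := fun x y h1 h2 => by
                rcases lx_tri (k1 rk rt x) (k1 rk rt y) with h | h | h
                · exact absurd h h1
                · exact k1_inj hrk1 hrt1 h
                · exact absurd h h2
              irrefl := fun x => lx_irr _
              trans := fun x y z h1 h2 => lx_trans h1 h2 }
    · exact { trichotomous := fun x y h1 h2 => by
                rcases lx_tri (k2 σ rk rt b B x) (k2 σ rk rt b B y) with h | h | h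
                · exact absurd h h1
                · exact k2_inj hrk1 hrt1 h
                · exact absurd h h2
              irrefl := fun x => lx_irr _
              trans := fun x y z h1 h2 => lx_trans h1 h2 }
  · rintro j m ⟨f, hf⟩ u hu
    choose y hy using fun i => cEl.1 (hu i)
    have e : u = fun i => Nd.el (y i) := funext hy
    subst e
    refine ⟨Nd.el (@Structure.funMap L X T0 m.1 f y), ⟨cEl.2 ⟨_, rfl⟩,
      (hTF f j y _ hf).2 rfl⟩, ?_⟩
    rintro z ⟨h1, h2⟩
    obtain ⟨x, rfl⟩ := cEl.1 h1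
    exact congrArg _ ((hTF f j y x hf).1 h2).symm
  · intro m f hf xs
    show (if (fnn m f).isSome then _ else _) = _
    rw [if_pos hf]
  · intro m R hR xs
    show ((rn m R).isSome ∧ _) ↔ _
    exact ⟨fun h => h.2, fun h => ⟨hR, h⟩⟩
  · refine ⟨fun x => ⟨(), fun _ => Nd.el x, rfl⟩, fun c w => cEl, ?_, ?_, ?_⟩
    · intro c c' w w' x x' h1 h2
      show w 0 = w' 0 ↔ _
      rw [h1, h2]
      exact Nd.el.injEq x x' ▸ Iff.rfl
    · intro m R cs ws xs h
      have e : (fun i => ws i 0) = fun i => Nd.el (xs i) := funext h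
      show (∃ j, rn m R = some j ∧ TupR (PO σ rk rt b B) π σ hk j (fun i => ws i 0)) ↔
        ((rn m R).isSome ∧ @Structure.RelMap L X T0 m R xs)
      rw [e]
      constructor
      · rintro ⟨j, h1, h2⟩
        exact ⟨by rw [h1]; rfl, (hTR R j xs h1).1 h2⟩
      · rintro ⟨h1, h2⟩
        obtain ⟨j, hj⟩ := Option.isSome_iff_exists.1 h1
        exact ⟨j, hj, (hTR R j xs hj).2 h2⟩
    · intro m f cs c ws w xs x h1 h2
      have e : (fun i => ws i 0) = fun i => Nd.el (xs i) := funext h1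
      show ((∃ j, fnn m f = some j ∧ TupR (PO σ rk rt b B) π σ hk j
        (Fin.snoc (α := fun _ => Nd k K X) (fun i => ws i 0) (w 0) : Fin (m + 1) → Nd k K X)) ∨
        (fnn m f = none ∧ w 0 = Nd.el x0)) ↔
        (if (fnn m f).isSome then @Structure.funMap L X T0 m f xs else x0) = x
      have h2' : w 0 = Nd.el x := h2
      rw [e, h2']
      rcases h : fnn m f with _ | j
      · simp only [reduceCtorEq, false_and, exists_false, true_and, false_or, Option.isSome_none,
          Bool.false_eq_true, if_false, Nd.el.injEq]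
        exact eq_comm
      · simp only [Option.some.injEq, exists_eq_left', reduceCtorEq, false_and, or_false,
          Option.isSome_some, if_true]
        exact hTF f j xs x h

/-- **Coding theorem.** For every sentence there is a sentence about partial orders whose models
of dimension at most two have sizes `sz k K n` exactly for the sizes `n` of the models of the
given sentence. -/
theorem code_spec (φ : L.Sentence) : ∃ (k K : ℕ) (ψ : LP.Sentence), ∀ n : ℕ, 0 < n →
    ((∃ (M : Type) (S : L.Structure M), Nat.card M = n ∧ @Sentence.Realize L M S φ) ↔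
      ∃ (M : Type) (S : LP.Structure M), Nat.card M = sz k K n ∧ Dim2 (rl M S) ∧
        @Sentence.Realize LP M S ψ) := by
  obtain ⟨k, q, rn, fnn, hk, hrk, hfk, hu1, hu2, hu3, hloc⟩ := loc_num φ
  obtain ⟨K, hK⟩ : ∃ K, k + q = K + 1 := ⟨k + q - 1, by omega⟩
  let σ : Fin k ⊕ Fin q ≃ Fin (K + 1) := finSumFinEquiv.trans (finCongr hK)
  obtain ⟨Q, hQ1, hQ2⟩ := sent_tr (I0 σ hk rn fnn) φ
  obtain ⟨ψ, hψ⟩ := FD.sent (L := LP) (P := fun M S => ∃ p : Fin (K + 2) ⊕ Unit → M,
      Shape (rl M S) (fun i => p (Sum.inl i)) σ ∧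
      El (rl M S) (fun i => p (Sum.inl i)) (p (Sum.inr ())) ∧
      FunAx (L := L) σ hk fnn M S (fun i => p (Sum.inl i)) ∧ Q M S p)
    (FD.ex (P := fun M S (_ : Empty → M) p => Shape (rl M S) (fun i => p (Sum.inl i)) σ ∧
      El (rl M S) (fun i => p (Sum.inl i)) (p (Sum.inr ())) ∧
      FunAx (L := L) σ hk fnn M S (fun i => p (Sum.inl i)) ∧ Q M S p)
      ((fd_Shape σ (fun i => Sum.inr (Sum.inl i))).and
        ((fd_El (fun i => Sum.inr (Sum.inl i)) (Sum.inr (Sum.inr ()))).and
          ((fd_FunAx σ hk fnn (fun i => Sum.inr (Sum.inl i))).and (hQ1 (fun i => Sum.inr i))))))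
  refine ⟨k, K, ψ, fun n hn => ⟨?_, ?_⟩⟩
  · rintro ⟨X, T0, hc, hr⟩
    have : Finite X := Nat.finite_of_card_ne_zero (by omega)
    have : Nonempty X := (Nat.card_pos_iff.1 (by omega)).1
    obtain ⟨x0⟩ := this
    obtain ⟨S, T1, p, h1, h2, h3, h4, h5, h6, h7⟩ := rep_up σ hk rn fnn T0 x0 hrk hfk hu1 hu2 hu3
    refine ⟨Nd k K X, S, ?_, h1, (hψ _ S).2 ⟨p, h2, h3, h4, ?_⟩⟩
    · rw [card_nd k K X (by omega), hc]
      rfl
    · rw [hQ2 X T1 _ S p _ h7]
      exact (hloc X T1 T0 h5 h6).2 hr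
  · rintro ⟨M, S, hc, ⟨a, b, ha, hb, hab⟩, hr⟩
    obtain ⟨p, h2, h3, h4, h5⟩ := (hψ M S).1 hr
    have : Finite M := Nat.finite_of_card_ne_zero (by rw [hc]; unfold sz; omega)
    obtain ⟨T0, hT0⟩ := rep_down σ hk rn fnn hfk h3 h4
    refine ⟨_, T0, ?_, (hQ2 _ T0 M S p _ hT0).1 h5⟩
    have hc2 := h2.card_all
      (fun x y z h h' => (hab x z).2 ⟨_root_.trans ((hab x y).1 h).1 ((hab y z).1 h').1,
        _root_.trans ((hab x y).1 h).2 ((hab y z).1 h').2⟩)
      (fun x h => irrefl x ((hab x x).1 h).1)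
    exact (sz_mono k K).injective (hc2.symm.trans hc)

end Pool.Agent.TH686.SP
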