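import Pool.Agent.TH686.SP.Rud

set_option autoImplicit false

/-! Spectra are closed under inverse images of the size polynomials: a structure on a disjoint
union of powers of `X` is coded by a structure on `X`. -/

namespace Pool.Agent.TH686.SP

open FirstOrder FirstOrder.Language

section

variable (L : FirstOrder.Language.{0, 0}) {S : Type} (ar : S → ℕ)

/-- relation symbols for the relations and the graphs of the functions, for all sorts -/
inductive RY : ℕ → Type
  | rel {m : ℕ} (R : L.Relations m) (c : Fin m → S) :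
      RY (Fintype.card (Σ i, Fin (ar (c i))))
  | fn {m : ℕ} (f : L.Functions m) (c : Fin m → S) (s : S) :
      RY (Fintype.card ((Σ i, Fin (ar (c i))) ⊕ Fin (ar s)))

/-- the language for structures on `Y X` -/
def LY : FirstOrder.Language.{0, 0} := ⟨fun _ => Empty, RY L ar⟩

/-- the disjoint union of powers -/
abbrev Y (X : Type) : Type := Σ s : S, (Fin (ar s) → X)

variable {L ar}

/-- the coded relation at a tuple -/
def cR (X : Type) (T : (LY L ar).Structure X) {m : ℕ} (R : L.Relations m) (c : Fin m → S)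
    (g : (Σ i, Fin (ar (c i))) → X) : Prop :=
  @Structure.RelMap (LY L ar) X T _ (RY.rel R c) (fun q => g ((Fintype.equivFin _).symm q))

/-- the coded graph at a tuple -/
def cF (X : Type) (T : (LY L ar).Structure X) {m : ℕ} (f : L.Functions m) (c : Fin m → S) (s : S)
    (g : (Σ i, Fin (ar (c i))) ⊕ Fin (ar s) → X) : Prop :=
  @Structure.RelMap (LY L ar) X T _ (RY.fn f c s) (fun q => g ((Fintype.equivFin _).symm q))

variable {A : ℕ} (hA : ∀ s, ar s ≤ A)

/-- the part of a padded tuple that matters -/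
def tr (c : S) {X : Type} (w : Fin A → X) : Fin (ar c) → X := fun j => w (Fin.castLE (hA c) j)

/-- the arguments of a coded relation -/
def gR {X : Type} {m : ℕ} (c : Fin m → S) (ws : Fin m → Fin A → X) :
    (Σ i, Fin (ar (c i))) → X := fun q => ws q.1 (Fin.castLE (hA _) q.2)

/-- the arguments of a coded graph -/
def gF {X : Type} {m : ℕ} (c : Fin m → S) (s : S) (ws : Fin m → Fin A → X) (w : Fin A → X) :
    (Σ i, Fin (ar (c i))) ⊕ Fin (ar s) → X :=
  Sum.elim (gR hA c ws) (fun j => w (Fin.castLE (hA s) j))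

/-- the graph has exactly one value -/
def Uq (X : Type) (T : (LY L ar).Structure X) {m : ℕ} (f : L.Functions m) (cs : Fin m → S)
    (ws : Fin m → Fin A → X) : Prop :=
  ∃ c, ∃ w : Fin A → X, cF X T f cs c (gF hA cs c ws w) ∧
    ∀ c', ∀ w' : Fin A → X, cF X T f cs c' (gF hA cs c' ws w') →
      (c' = c ∧ ∀ j : Fin A, j.1 < ar c → w' j = w j)

theorem fd_cR {α : Type} {m : ℕ} (R : L.Relations m) (c : Fin m → S) (ws : Fin m → Fin A → α) :
    FD (fun M T v => cR M T R c (gR hA c fun i j => v (ws i j))) :=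
  FD.rel (L := LY L ar) (RY.rel R c) (fun q => gR hA c ws ((Fintype.equivFin _).symm q))

theorem gF_map {Z X : Type} {m : ℕ} (v : Z → X) (c : Fin m → S) (s : S) (ws : Fin m → Fin A → Z)
    (w : Fin A → Z) (q) : v (gF hA c s ws w q) = gF hA c s (fun i j => v (ws i j))
      (fun j => v (w j)) q := by
  rcases q with q | q
  · rfl
  · rfl

theorem fd_cF {α : Type} {m : ℕ} (f : L.Functions m) (c : Fin m → S) (s : S)
    (ws : Fin m → Fin A → α) (w : Fin A → α) :
    FD (fun M T v => cF M T f c s (gF hA c s (fun i j => v (ws i j)) fun j => v (w j))) := by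
  refine (FD.rel (L := LY L ar) (RY.fn f c s)
    (fun q => gF hA c s ws w ((Fintype.equivFin _).symm q))).congr fun M T v => ?_
  unfold cF
  simp only [gF_map]

theorem fd_Uq [Finite S] {α : Type} {m : ℕ} (f : L.Functions m) (cs : Fin m → S)
    (ws : Fin m → Fin A → α) :
    FD (fun M T v => Uq hA M T f cs fun i j => v (ws i j)) := by
  refine FD.fin' fun c => FD.ex (P := fun M T v w =>
    cF M T f cs c (gF hA cs c (fun i j => v (ws i j)) w) ∧
    ∀ c', ∀ w' : Fin A → M, cF M T f cs c' (gF hA cs c' (fun i j => v (ws i j)) w') →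
      (c' = c ∧ ∀ j : Fin A, j.1 < ar c → w' j = w j)) ?_
  refine (fd_cF hA f cs c (fun i j => Sum.inl (ws i j)) (fun j => Sum.inr j)).and
    (FD.fin fun c' => ?_)
  refine FD.all (P := fun M T v w' =>
    cF M T f cs c' (gF hA cs c' (fun i j => v (Sum.inl (ws i j))) w') →
      (c' = c ∧ ∀ j : Fin A, j.1 < ar c → w' j = v (Sum.inr j))) ?_
  exact (fd_cF hA f cs c' (fun i j => Sum.inl (Sum.inl (ws i j))) (fun j => Sum.inr j)).imp
    ((FD.const _).and (FD.fin fun j => (FD.const _).imp (FD.eq _ _)))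

/-- the interpretation of a structure on `Y X` -/
def IY [Finite S] (s0 : S) : Itp L (LY L ar) S A Empty where
  dom _ _ _ _ _ := True
  eqv c c' _ _ _ w w' := c = c' ∧ ∀ j : Fin A, j.1 < ar c → w j = w' j
  rel R cs M T _ ws := cR M T R cs (gR hA cs ws)
  fn f cs c M T _ ws w := (Uq hA M T f cs ws ∧ cF M T f cs c (gF hA cs c ws w)) ∨
    (¬ Uq hA M T f cs ws ∧ c = s0)
  fd_dom _ _ _ _ := FD.const True
  fd_eqv c c' _ _ w w' := (FD.const _).and (FD.fin fun j => (FD.const _).imp (FD.eq _ _))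
  fd_rel R cs _ _ ws := fd_cR hA R cs ws
  fd_fn f cs c _ _ ws w := ((fd_Uq hA f cs ws).and (fd_cF hA f cs c ws w)).or
    ((fd_Uq hA f cs ws).not.and (FD.const _))

theorem tr_eq {X : Type} {c c' : S} {w w' : Fin A → X} :
    ((⟨c, tr hA c w⟩ : Y ar X) = ⟨c', tr hA c' w'⟩) ↔
      (c = c' ∧ ∀ j : Fin A, j.1 < ar c → w j = w' j) := by
  constructor
  · intro h
    obtain ⟨h1, h2⟩ := Sigma.mk.inj_iff.1 h
    subst h1
    refine ⟨rfl, fun j hj => ?_⟩
    exact congrFun (eq_of_heq h2) ⟨j.1, hj⟩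
  · rintro ⟨rfl, h⟩
    have : tr hA c w = tr hA c w' := funext fun j => h _ j.2
    rw [this]

theorem pad [Nonempty S] {X : Type} (x0 : X) (y : Y ar X) :
    ∃ w : Fin A → X, y = ⟨y.1, tr hA y.1 w⟩ := by
  refine ⟨fun j => if h : j.1 < ar y.1 then y.2 ⟨j.1, h⟩ else x0, ?_⟩
  obtain ⟨c, z⟩ := y
  have : z = tr hA c (fun j => if h : j.1 < ar c then z ⟨j.1, h⟩ else x0) := by
    funext j
    simp [tr]
  rw [← this]

/-- decoding -/
theorem repY_down [Finite S] (s0 : S) (h0 : ar s0 = 0) {X : Type} (x0 : X)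
    (T : (LY L ar).Structure X) (p : Empty → X) :
    ∃ T0 : L.Structure (Y ar X), Rep (IY (L := L) hA s0) (Y ar X) T0 X T p
      (fun c w y => y = ⟨c, tr hA c w⟩) := by
  classical
  have : Nonempty S := ⟨s0⟩
  choose W hW using fun y : Y ar X => pad hA x0 y
  have hval : ∀ {m : ℕ} (f : L.Functions m) (cs : Fin m → S) (ws : Fin m → Fin A → X),
      ∃ z : Y ar X, ∀ c w, z = ⟨c, tr hA c w⟩ ↔
        (IY (L := L) hA s0).fn f cs c X T p ws w := by
    intro m f cs ws
    by_cases h : Uq hA X T f cs ws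
    · obtain ⟨c, w, h1, h2⟩ := h
      refine ⟨⟨c, tr hA c w⟩, fun c' w' => ?_⟩
      constructor
      · intro h3
        rw [tr_eq] at h3
        obtain ⟨rfl, h4⟩ := h3
        refine Or.inl ⟨⟨c, w, h1, h2⟩, ?_⟩
        have e : gF hA cs c ws w = gF hA cs c ws w' := by
          funext q
          rcases q with q | j
          · rfl
          · exact h4 _ j.2
        rw [← e]
        exact h1
      · rintro (⟨-, h3⟩ | ⟨h3, -⟩)
        · obtain ⟨rfl, h4⟩ := h2 c' w' h3
          rw [tr_eq]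
          exact ⟨rfl, fun j hj => (h4 j hj).symm⟩
        · exact absurd ⟨c, w, h1, h2⟩ h3
    · refine ⟨⟨s0, tr hA s0 (fun _ => x0)⟩, fun c' w' => ?_⟩
      rw [tr_eq]
      constructor
      · rintro ⟨h1, -⟩
        exact Or.inr ⟨h, h1.symm⟩
      · rintro (⟨h1, -⟩ | ⟨-, h1⟩)
        · exact absurd h1 h
        · exact ⟨h1.symm, fun j hj => absurd hj (by omega)⟩
  choose V hV using @hval
  refine ⟨{ funMap := fun {m} f ys => V f (fun i => (ys i).1) (fun i => W (ys i))
            RelMap := fun {m} R ys => cR X T R (fun i => (ys i).1)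
              (gR hA (fun i => (ys i).1) (fun i => W (ys i))) }, ?_⟩
  have hWt : ∀ (c : S) (w : Fin A → X) (j : Fin (ar c)),
      W ⟨c, tr hA c w⟩ (Fin.castLE (hA c) j) = w (Fin.castLE (hA c) j) := by
    intro c w j
    have h1 := hW ⟨c, tr hA c w⟩
    have h2 := (tr_eq hA).1 h1
    exact (h2.2 _ j.2).symm
  refine ⟨fun y => ⟨y.1, W y, hW y⟩, fun c w => ⟨fun _ => ⟨_, rfl⟩, fun _ => trivial⟩, ?_, ?_, ?_⟩
  · rintro c c' w w' y y' rfl rfl
    exact (tr_eq hA).symm
  · intro m R cs ws ys h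
    have e : ys = fun i => ⟨cs i, tr hA (cs i) (ws i)⟩ := funext h
    subst e
    show cR X T R cs (gR hA cs ws) ↔ cR X T R cs _
    have e2 : gR hA cs (fun i => W ⟨cs i, tr hA (cs i) (ws i)⟩) = gR hA cs ws := by
      funext q
      exact hWt _ _ _
    rw [← e2]
  · intro m f cs c ws w ys y h h'
    have e : ys = fun i => ⟨cs i, tr hA (cs i) (ws i)⟩ := funext h
    subst e
    subst h'
    have e2 : gR hA cs (fun i => W ⟨cs i, tr hA (cs i) (ws i)⟩) = gR hA cs ws := by
      funext q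
      exact hWt _ _ _
    have e3 : (IY (L := L) hA s0).fn f cs c X T p ws w ↔
        (IY (L := L) hA s0).fn f cs c X T p (fun i => W ⟨cs i, tr hA (cs i) (ws i)⟩) w := by
      show ((Uq hA X T f cs ws ∧ cF X T f cs c (gF hA cs c ws w)) ∨
        (¬ Uq hA X T f cs ws ∧ c = s0)) ↔ _
      have e4 : ∀ c w, gF hA cs c ws w =
          gF hA cs c (fun i => W ⟨cs i, tr hA (cs i) (ws i)⟩) w := by
        intro c w
        unfold gF
        rw [e2]
      have e5 : Uq hA X T f cs ws ↔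
          Uq hA X T f cs (fun i => W ⟨cs i, tr hA (cs i) (ws i)⟩) := by
        unfold Uq
        simp only [e4]
      rw [e5, e4]
      exact Iff.rfl
    rw [e3]
    exact (hV f cs (fun i => W ⟨cs i, tr hA (cs i) (ws i)⟩) c w).symm

/-- coding -/
theorem repY_up [Finite S] (s0 : S) {X : Type} (x0 : X)
    (T0 : L.Structure (Y ar X)) (p : Empty → X) :
    ∃ T : (LY L ar).Structure X, Rep (IY (L := L) hA s0) (Y ar X) T0 X T p
      (fun c w y => y = ⟨c, tr hA c w⟩) := by
  have : Nonempty S := ⟨s0⟩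
  let T : (LY L ar).Structure X :=
    { funMap := fun {m} f => nomatch f
      RelMap := fun {N} R => match N, R with
        | _, RY.rel R c => fun v => @Structure.RelMap L (Y ar X) T0 _ R
            (fun i => ⟨c i, fun j => v (Fintype.equivFin _ ⟨i, j⟩)⟩)
        | _, RY.fn f c s => fun v => @Structure.funMap L (Y ar X) T0 _ f
            (fun i => ⟨c i, fun j => v (Fintype.equivFin _ (Sum.inl ⟨i, j⟩))⟩) =
            ⟨s, fun j => v (Fintype.equivFin _ (Sum.inr j))⟩ }
  have hR : ∀ {m : ℕ} (R : L.Relations m) (c : Fin m → S) (g : (Σ i, Fin (ar (c i))) → X),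
      cR X T R c g ↔ @Structure.RelMap L (Y ar X) T0 _ R (fun i => ⟨c i, fun j => g ⟨i, j⟩⟩) := by
    intro m R c g
    show @Structure.RelMap L (Y ar X) T0 _ R (fun i => ⟨c i, fun j =>
      g ((Fintype.equivFin _).symm (Fintype.equivFin _ ⟨i, j⟩))⟩) ↔ _
    simp only [Equiv.symm_apply_apply]
  have hF : ∀ {m : ℕ} (f : L.Functions m) (c : Fin m → S) (s : S)
      (g : (Σ i, Fin (ar (c i))) ⊕ Fin (ar s) → X),
      cF X T f c s g ↔ @Structure.funMap L (Y ar X) T0 _ f
        (fun i => ⟨c i, fun j => g (Sum.inl ⟨i, j⟩)⟩) = ⟨s, fun j => g (Sum.inr j)⟩ := by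
    intro m f c s g
    show @Structure.funMap L (Y ar X) T0 _ f (fun i => ⟨c i, fun j =>
      g ((Fintype.equivFin _).symm (Fintype.equivFin _ (Sum.inl ⟨i, j⟩)))⟩) =
        ⟨s, fun j => g ((Fintype.equivFin _).symm (Fintype.equivFin _ (Sum.inr j)))⟩ ↔ _
    simp only [Equiv.symm_apply_apply]
  have hF' : ∀ {m : ℕ} (f : L.Functions m) (cs : Fin m → S) (c : S) (ws : Fin m → Fin A → X)
      (w : Fin A → X), cF X T f cs c (gF hA cs c ws w) ↔
        @Structure.funMap L (Y ar X) T0 _ f (fun i => ⟨cs i, tr hA (cs i) (ws i)⟩) =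
          ⟨c, tr hA c w⟩ := fun f cs c ws w => hF f cs c _
  refine ⟨T, fun y => ?_, fun c w => ⟨fun _ => ⟨_, rfl⟩, fun _ => trivial⟩, ?_, ?_, ?_⟩
  · obtain ⟨w, hw⟩ := pad hA x0 y
    exact ⟨y.1, w, hw⟩
  · rintro c c' w w' y y' rfl rfl
    exact (tr_eq hA).symm
  · intro m R cs ws ys h
    have e : ys = fun i => ⟨cs i, tr hA (cs i) (ws i)⟩ := funext h
    subst e
    exact hR R cs _
  · intro m f cs c ws w ys y h h'
    have e : ys = fun i => ⟨cs i, tr hA (cs i) (ws i)⟩ := funext h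
    subst e
    subst h'
    have hU : Uq hA X T f cs ws := by
      obtain ⟨w1, hw1⟩ := pad hA x0 (@Structure.funMap L (Y ar X) T0 _ f
        (fun i => ⟨cs i, tr hA (cs i) (ws i)⟩))
      refine ⟨_, w1, (hF' f cs _ ws w1).2 hw1, fun c' w' h1 => ?_⟩
      have h2 := (hF' f cs _ ws w').1 h1
      rw [hw1] at h2
      obtain ⟨h3, h4⟩ := (tr_eq hA).1 h2
      exact ⟨h3.symm, fun j hj => (h4 j hj).symm⟩
    show ((Uq hA X T f cs ws ∧ cF X T f cs c (gF hA cs c ws w)) ∨
        (¬ Uq hA X T f cs ws ∧ c = s0)) ↔ _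
    rw [hF']
    exact ⟨fun h => h.elim (fun h => h.2) (fun h => absurd hU h.1), fun h => Or.inl ⟨hU, h⟩⟩

end

/-- the sorts -/
abbrev Srt (K : ℕ) : Type := Fin (K + 2) ⊕ Unit ⊕ Fin (3 * (K + 1))

/-- their arities -/
def arS (k K : ℕ) : Srt K → ℕ := Sum.elim (fun _ => 0) (Sum.elim (fun _ => 1) (fun _ => k))

theorem card_Y (k K : ℕ) (X : Type) [Finite X] : Nat.card (Y (arS k K) X) = sz k K (Nat.card X) := by
  have := Fintype.ofFinite X
  rw [Nat.card_sigma, Fintype.sum_sum_type, Fintype.sum_sum_type]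
  simp only [arS, Sum.elim_inl, Sum.elim_inr, Nat.card_fun, Nat.card_fin, pow_zero, pow_one,
    Finset.sum_const, Finset.card_univ, Fintype.card_fin, smul_eq_mul, Fintype.card_unit]
  unfold sz
  ring

/-- **Inverse images.** -/
theorem inv_poly {L : FirstOrder.Language.{0, 0}} (τ : L.Sentence) (k K : ℕ) :
    ∃ (L' : FirstOrder.Language.{0, 0}) (χ : L'.Sentence), ∀ n : ℕ, 0 < n →
      ((∃ (M : Type) (S : L'.Structure M), Nat.card M = n ∧ @Sentence.Realize L' M S χ) ↔
        ∃ (M : Type) (S : L.Structure M), Nat.card M = sz k K n ∧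
          @Sentence.Realize L M S τ) := by
  have hA : ∀ s, arS k K s ≤ k + 1 := by
    rintro (s | s | s)
    · exact Nat.zero_le _
    · exact Nat.succ_pos _
    · exact Nat.le_succ _
  obtain ⟨Q, hQ1, hQ2⟩ := sent_tr (IY (L := L) hA (Sum.inl 0)) τ
  obtain ⟨χ, hχ⟩ := FD.sent (L := LY L (arS k K)) (P := fun M S => Q M S (fun e => e.elim))
    ((hQ1 (α := Empty) (fun e => e)).congr fun M S v => by
      rw [show (fun i => v i) = (fun e : Empty => (e.elim : M)) from Subsingleton.elim _ _])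
  refine ⟨LY L (arS k K), χ, fun n hn => ⟨?_, ?_⟩⟩
  · rintro ⟨X, T, hc, hr⟩
    have : Finite X := Nat.finite_of_card_ne_zero (by omega)
    obtain ⟨x0⟩ := (Nat.card_pos_iff.1 (show 0 < Nat.card X by omega)).1
    obtain ⟨T0, hT0⟩ := repY_down hA (Sum.inl 0) rfl x0 T (fun e => e.elim)
    refine ⟨_, T0, ?_, (hQ2 _ T0 X T _ _ hT0).1 ((hχ X T).1 hr)⟩
    rw [card_Y, hc]
  · rintro ⟨M, S, hc, hr⟩
    have h1 : Nat.card M = Nat.card (Y (arS k K) (Fin n)) := by
      rw [card_Y, hc, Nat.card_fin]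
    have : Finite M := Nat.finite_of_card_ne_zero (by rw [hc]; unfold sz; omega)
    have hne : Finite (Y (arS k K) (Fin n)) := inferInstance
    let e : M ≃ Y (arS k K) (Fin n) :=
      (Finite.equivFinOfCardEq h1).trans (Finite.equivFin _).symm
    let T0 : L.Structure (Y (arS k K) (Fin n)) := e.inducedStructure
    obtain ⟨T, hT⟩ := repY_up hA (Sum.inl 0) (⟨0, hn⟩ : Fin n) T0 (fun e => e.elim)
    refine ⟨Fin n, T, Nat.card_fin n, (hχ _ T).2 ((hQ2 _ T0 _ T _ _ hT).2 ?_)⟩
    exact (StrongHomClass.realize_sentence (e.inducedStructureEquiv (L := L)) τ).1 hr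

/-- **Asser's problem.** -/
theorem asser_main :
    (∀ (L : FirstOrder.Language.{0, 0}) (φ : L.Sentence),
      ∃ (L' : FirstOrder.Language.{0, 0}) (χ : L'.Sentence),
        ∀ n : ℕ, n ∈ spec χ ↔ (0 < n ∧ n ∉ spec φ)) ↔
    (∀ φ : LP.Sentence,
      ∃ (L' : FirstOrder.Language.{0, 0}) (χ : L'.Sentence),
        ∀ n : ℕ, n ∈ spec χ ↔ (0 < n ∧ n ∉ spec2 φ)) := by
  constructor
  · intro h φ
    obtain ⟨χ, hχ⟩ := dim2_spec φ
    obtain ⟨L', χ', h'⟩ := h LQ χ
    refine ⟨L', χ', fun n => ?_⟩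
    have e : spec2 φ = spec χ := by
      ext n
      exact and_congr_right fun _ => (hχ n).symm
    rw [e]
    exact h' n
  · intro h L φ
    obtain ⟨k, K, ψ, hψ⟩ := code_spec φ
    obtain ⟨L1, χ1, h1⟩ := h ψ
    obtain ⟨L2, χ2, h2⟩ := inv_poly χ1 k K
    refine ⟨L2, χ2, fun n => ?_⟩
    have h0 : 0 < sz k K n := by
      unfold sz
      omega
    constructor
    · rintro ⟨hn, h3⟩
      refine ⟨hn, fun h4 => ?_⟩
      exact ((h1 (sz k K n)).1 ⟨h0, (h2 n hn).1 h3⟩).2 ⟨h0, (hψ n hn).1 h4.2⟩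
    · rintro ⟨hn, h3⟩
      refine ⟨hn, (h2 n hn).2 ((h1 (sz k K n)).2 ⟨h0, fun h4 => ?_⟩).2⟩
      exact h3 ⟨hn, (hψ n hn).2 h4.2⟩

end Pool.Agent.TH686.SP
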