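import Pool.Agent.TH686.SP.Itp
import Pool.Agent.TH686.SP.Loc
import Pool.Agent.TH686.SP.Code

set_option autoImplicit false

/-! Arbitrary finite structures are coded in partial orders of dimension at most two by
first-order formulas, with an exact polynomial change of the size. -/

namespace Pool.Agent.TH686.SP

open FirstOrder FirstOrder.Language

/-- one binary relation symbol -/
inductive RP : ℕ → Type
  | lt : RP 2

/-- the language of one binary relation -/
def LP : FirstOrder.Language.{0, 0} := ⟨fun _ => Empty, RP⟩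

/-- the relation of a structure -/
def rl (M : Type) (S : LP.Structure M) (x y : M) : Prop :=
  @Structure.RelMap LP M S 2 RP.lt ![x, y]

/-- partial orders of dimension at most two: intersections of two linear orders -/
def Dim2 {M : Type} (r : M → M → Prop) : Prop :=
  ∃ a b : M → M → Prop, IsStrictTotalOrder M a ∧ IsStrictTotalOrder M b ∧
    ∀ x y, r x y ↔ (a x y ∧ b x y)

/-- the structure of a relation -/
def ofl {M : Type} (r : M → M → Prop) : LP.Structure M where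
  funMap := fun {_} f => nomatch f
  RelMap := fun {_} R v => match R, v with
    | RP.lt, v => r (v 0) (v 1)

theorem rl_ofl {M : Type} (r : M → M → Prop) : rl M (ofl r) = r := rfl

section fd

variable {α : Type}

theorem fd_lt (i j : α) : FD (fun M S v => rl M S (v i) (v j)) := by
  refine (FD.rel (L := LP) RP.lt ![i, j]).congr fun M S v => ?_
  have : (fun t => v (![i, j] t)) = ![v i, v j] := by
    funext t
    fin_cases t <;> rfl
  rw [this]
  rfl

variable {K : ℕ}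

theorem fd_Dl (p : Fin (K + 2) → α) (x : α) :
    FD (fun M S v => Dl (rl M S) (fun i => v (p i)) (v x)) :=
  (fd_lt (p 0) x).not.and (FD.eq x (p 0)).not

theorem fd_Ndl (p : Fin (K + 2) → α) (x : α) :
    FD (fun M S v => Ndl (rl M S) (fun i => v (p i)) (v x)) :=
  FD.all1 (P := fun M S v d => Dl (rl M S) (fun i => v (p i)) d → ¬ rl M S d (v x))
    ((fd_Dl (fun i => Sum.inl (p i)) (Sum.inr ())).imp (fd_lt (Sum.inr ()) (Sum.inl x)).not)

theorem fd_El (p : Fin (K + 2) → α) (x : α) :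
    FD (fun M S v => El (rl M S) (fun i => v (p i)) (v x)) :=
  (fd_lt _ _).and (fd_Ndl p x)

theorem fd_Own (p : Fin (K + 2) → α) (d x : α) :
    FD (fun M S v => Own (rl M S) (fun i => v (p i)) (v d) (v x)) :=
  (fd_Dl p d).and ((fd_lt (p 0) x).and ((fd_lt d x).and
    (FD.all1 (P := fun M S v d' => Dl (rl M S) (fun i => v (p i)) d' → rl M S d' (v x) →
      (d' = v d ∨ rl M S d' (v d)))
      ((fd_Dl (fun i => Sum.inl (p i)) (Sum.inr ())).imp
        ((fd_lt (Sum.inr ()) (Sum.inl x)).imp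
          ((FD.eq (Sum.inr ()) (Sum.inl d)).or (fd_lt (Sum.inr ()) (Sum.inl d))))))))

theorem fd_Tg (p : Fin (K + 2) → α) (d : α) (s : Fin (K + 1)) :
    FD (fun M S v => Tg (rl M S) (fun i => v (p i)) (v d) s) :=
  FD.ex1 (P := fun M S v x => Own (rl M S) (fun i => v (p i)) (v d) x ∧
      rl M S (v (p s.castSucc)) x ∧ ¬ rl M S (v (p s.succ)) x)
    ((fd_Own (fun i => Sum.inl (p i)) (Sum.inl d) (Sum.inr ())).and
      ((fd_lt (Sum.inl (p s.castSucc)) (Sum.inr ())).and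
        (fd_lt (Sum.inl (p s.succ)) (Sum.inr ())).not))

theorem fd_Vp (p : Fin (K + 2) → α) (d x : α) :
    FD (fun M S v => Vp (rl M S) (fun i => v (p i)) (v d) (v x)) :=
  (fd_Own p d x).and (fd_lt _ _)

theorem fd_Vl (p : Fin (K + 2) → α) (x e : α) :
    FD (fun M S v => Vl (rl M S) (fun i => v (p i)) (v x) (v e)) :=
  (fd_El p e).and ((fd_lt e x).and
    (FD.all1 (P := fun M S v e' => El (rl M S) (fun i => v (p i)) e' → rl M S e' (v x) →
      (e' = v e ∨ rl M S e' (v e)))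
      ((fd_El (fun i => Sum.inl (p i)) (Sum.inr ())).imp
        ((fd_lt (Sum.inr ()) (Sum.inl x)).imp
          ((FD.eq (Sum.inr ()) (Sum.inl e)).or (fd_lt (Sum.inr ()) (Sum.inl e)))))))

theorem fd_St (p : Fin (K + 2) → α) (d : α) :
    FD (fun M S v => St (rl M S) (fun i => v (p i)) (v d)) :=
  (fd_Dl p d).and (fd_Tg p d 0)

theorem fd_StOf (p : Fin (K + 2) → α) (d0 d : α) :
    FD (fun M S v => StOf (rl M S) (fun i => v (p i)) (v d0) (v d)) :=
  (fd_St p d0).and (((FD.eq d0 d).or (fd_lt d0 d)).and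
    (FD.all1 (P := fun M S v d' => St (rl M S) (fun i => v (p i)) d' →
      (d' = v d ∨ rl M S d' (v d)) → (d' = v d0 ∨ rl M S d' (v d0)))
      ((fd_St (fun i => Sum.inl (p i)) (Sum.inr ())).imp
        (((FD.eq (Sum.inr ()) (Sum.inl d)).or (fd_lt (Sum.inr ()) (Sum.inl d))).imp
          ((FD.eq (Sum.inr ()) (Sum.inl d0)).or (fd_lt (Sum.inr ()) (Sum.inl d0)))))))

theorem fd_Cd (p : Fin (K + 2) → α) (d0 d : α) (s : Fin (K + 1)) :
    FD (fun M S v => Cd (rl M S) (fun i => v (p i)) (v d0) s (v d)) :=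
  (fd_Dl p d).and ((fd_StOf p d0 d).and (fd_Tg p d s))

theorem fd_Cv (p : Fin (K + 2) → α) (d0 e : α) (s : Fin (K + 1)) :
    FD (fun M S v => Cv (rl M S) (fun i => v (p i)) (v d0) s (v e)) :=
  FD.ex1 (P := fun M S v d => ∃ x, Cd (rl M S) (fun i => v (p i)) (v d0) s d ∧
      Vp (rl M S) (fun i => v (p i)) d x ∧ Vl (rl M S) (fun i => v (p i)) x (v e)) <|
  FD.ex1 (P := fun M S v x => Cd (rl M S) (fun i => v (Sum.inl (p i))) (v (Sum.inl d0)) s
        (v (Sum.inr ())) ∧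
      Vp (rl M S) (fun i => v (Sum.inl (p i))) (v (Sum.inr ())) x ∧
      Vl (rl M S) (fun i => v (Sum.inl (p i))) x (v (Sum.inl e)))
    ((fd_Cd (fun i => Sum.inl (Sum.inl (p i))) (Sum.inl (Sum.inl d0)) (Sum.inl (Sum.inr ())) s).and
      ((fd_Vp (fun i => Sum.inl (Sum.inl (p i))) (Sum.inl (Sum.inr ())) (Sum.inr ())).and
        (fd_Vl (fun i => Sum.inl (Sum.inl (p i))) (Sum.inr ()) (Sum.inl (Sum.inl e)))))

theorem fd_Bt (p : Fin (K + 2) → α) (d0 : α) (s : Fin (K + 1)) :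
    FD (fun M S v => Bt (rl M S) (fun i => v (p i)) (v d0) s) :=
  FD.ex1 (P := fun M S v d => ∃ x e, Cd (rl M S) (fun i => v (p i)) (v d0) s d ∧
      Vp (rl M S) (fun i => v (p i)) d x ∧ El (rl M S) (fun i => v (p i)) e ∧ rl M S e x) <|
  FD.ex1 (P := fun M S v x => ∃ e, Cd (rl M S) (fun i => v (Sum.inl (p i))) (v (Sum.inl d0)) s
        (v (Sum.inr ())) ∧
      Vp (rl M S) (fun i => v (Sum.inl (p i))) (v (Sum.inr ())) x ∧
      El (rl M S) (fun i => v (Sum.inl (p i))) e ∧ rl M S e x) <|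
  FD.ex1 (P := fun M S v e => Cd (rl M S) (fun i => v (Sum.inl (Sum.inl (p i))))
        (v (Sum.inl (Sum.inl d0))) s (v (Sum.inl (Sum.inr ()))) ∧
      Vp (rl M S) (fun i => v (Sum.inl (Sum.inl (p i)))) (v (Sum.inl (Sum.inr ())))
        (v (Sum.inr ())) ∧
      El (rl M S) (fun i => v (Sum.inl (Sum.inl (p i)))) e ∧ rl M S e (v (Sum.inr ())))
    ((fd_Cd (fun i => Sum.inl (Sum.inl (Sum.inl (p i)))) (Sum.inl (Sum.inl (Sum.inl d0)))
        (Sum.inl (Sum.inl (Sum.inr ()))) s).and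
      ((fd_Vp (fun i => Sum.inl (Sum.inl (Sum.inl (p i)))) (Sum.inl (Sum.inl (Sum.inr ())))
          (Sum.inl (Sum.inr ()))).and
        ((fd_El (fun i => Sum.inl (Sum.inl (Sum.inl (p i)))) (Sum.inr ())).and
          (fd_lt (Sum.inr ()) (Sum.inl (Sum.inr ()))))))

/-- unique existence -/
theorem fd_eu {P : ∀ M : Type, LP.Structure M → (α → M) → M → Prop}
    (h : FD (fun M S (w : α ⊕ Unit → M) => P M S (fun i => w (Sum.inl i)) (w (Sum.inr ())))) :
    FD (fun M S v => ∃! a : M, P M S v a) := by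
  have h2 : FD (fun M S v => ∃ a : M, P M S v a ∧ ∀ b : M, P M S v b → b = a) :=
    FD.ex1 (P := fun M S v a => P M S v a ∧ ∀ b : M, P M S v b → b = a)
      (h.and (FD.all1 (P := fun M S w b => P M S (fun i => w (Sum.inl i)) b → b = w (Sum.inr ()))
        ((h.sub (β := (α ⊕ Unit) ⊕ Unit)
          (Sum.elim (fun i => Sum.inl (Sum.inl i)) (fun _ => Sum.inr ()))).imp
          (FD.eq (Sum.inr ()) (Sum.inl (Sum.inr ()))))))
  exact h2

variable {k q : ℕ} (σ : Fin k ⊕ Fin q ≃ Fin (K + 1))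

theorem fd_Shape (p : Fin (K + 2) → α) :
    FD (fun M S v => Shape (rl M S) (fun i => v (p i)) σ) := by
  have h1 : FD (fun M S (v : α → M) => ∀ i j, i < j → rl M S (v (p i)) (v (p j))) :=
    FD.fin fun i => FD.fin fun j => (FD.const _).imp (fd_lt _ _)
  have h2 : FD (fun M S (v : α → M) => ∀ j, Ndl (rl M S) (fun i => v (p i)) (v (p j))) :=
    FD.fin fun j => fd_Ndl p (p j)
  have h3 : FD (fun M S (v : α → M) => ∀ x, rl M S (v (p 0)) x →
      Ndl (rl M S) (fun i => v (p i)) x →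
      (∃ j, x = v (p j)) ∨ rl M S (v (p (Fin.last (K + 1)))) x) :=
    FD.all1 (P := fun M S v x => rl M S (v (p 0)) x →
      Ndl (rl M S) (fun i => v (p i)) x →
      (∃ j, x = v (p j)) ∨ rl M S (v (p (Fin.last (K + 1)))) x)
      ((fd_lt (Sum.inl (p 0)) (Sum.inr ())).imp
        ((fd_Ndl (fun i => Sum.inl (p i)) (Sum.inr ())).imp
          ((FD.fin' fun j => FD.eq (Sum.inr ()) (Sum.inl (p j))).or
            (fd_lt (Sum.inl (p (Fin.last (K + 1)))) (Sum.inr ())))))
  have h4 : FD (fun M S (v : α → M) => ∀ x, rl M S (v (p 0)) x →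
      ¬ Ndl (rl M S) (fun i => v (p i)) x → ∃ d, Own (rl M S) (fun i => v (p i)) d x) :=
    FD.all1 (P := fun M S v x => rl M S (v (p 0)) x →
      ¬ Ndl (rl M S) (fun i => v (p i)) x → ∃ d, Own (rl M S) (fun i => v (p i)) d x)
      ((fd_lt (Sum.inl (p 0)) (Sum.inr ())).imp
        ((fd_Ndl (fun i => Sum.inl (p i)) (Sum.inr ())).not.imp
          (FD.ex1 (P := fun M S v d => Own (rl M S) (fun i => v (Sum.inl (p i))) d
            (v (Sum.inr ())))
            (fd_Own (fun i => Sum.inl (Sum.inl (p i))) (Sum.inr ()) (Sum.inl (Sum.inr ()))))))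
  have h5 : FD (fun M S (v : α → M) => ∀ d, Dl (rl M S) (fun i => v (p i)) d →
      ∃! x, Own (rl M S) (fun i => v (p i)) d x ∧ ¬ rl M S (v (p (Fin.last (K + 1)))) x) :=
    FD.all1 (P := fun M S v d => Dl (rl M S) (fun i => v (p i)) d →
      ∃! x, Own (rl M S) (fun i => v (p i)) d x ∧ ¬ rl M S (v (p (Fin.last (K + 1)))) x)
      ((fd_Dl (fun i => Sum.inl (p i)) (Sum.inr ())).imp
        (fd_eu (P := fun M S v x => Own (rl M S) (fun i => v (Sum.inl (p i))) (v (Sum.inr ())) x ∧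
          ¬ rl M S (v (Sum.inl (p (Fin.last (K + 1))))) x)
          ((fd_Own (fun i => Sum.inl (Sum.inl (p i))) (Sum.inl (Sum.inr ())) (Sum.inr ())).and
            (fd_lt (Sum.inl (Sum.inl (p (Fin.last (K + 1))))) (Sum.inr ())).not)))
  have h6 : FD (fun M S (v : α → M) => ∀ d, Dl (rl M S) (fun i => v (p i)) d →
      ∃! x, Vp (rl M S) (fun i => v (p i)) d x) :=
    FD.all1 (P := fun M S v d => Dl (rl M S) (fun i => v (p i)) d →
      ∃! x, Vp (rl M S) (fun i => v (p i)) d x)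
      ((fd_Dl (fun i => Sum.inl (p i)) (Sum.inr ())).imp
        (fd_eu (P := fun M S v x => Vp (rl M S) (fun i => v (Sum.inl (p i))) (v (Sum.inr ())) x)
          (fd_Vp (fun i => Sum.inl (Sum.inl (p i))) (Sum.inl (Sum.inr ())) (Sum.inr ()))))
  have h7 : FD (fun M S (v : α → M) => ∀ d, Dl (rl M S) (fun i => v (p i)) d →
      ∃ d0, StOf (rl M S) (fun i => v (p i)) d0 d) :=
    FD.all1 (P := fun M S v d => Dl (rl M S) (fun i => v (p i)) d →
      ∃ d0, StOf (rl M S) (fun i => v (p i)) d0 d)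
      ((fd_Dl (fun i => Sum.inl (p i)) (Sum.inr ())).imp
        (FD.ex1 (P := fun M S v d0 => StOf (rl M S) (fun i => v (Sum.inl (p i))) d0
          (v (Sum.inr ())))
          (fd_StOf (fun i => Sum.inl (Sum.inl (p i))) (Sum.inr ()) (Sum.inl (Sum.inr ())))))
  have h8 : FD (fun M S (v : α → M) => ∀ d0, St (rl M S) (fun i => v (p i)) d0 →
      ∀ s, ∃! d, Cd (rl M S) (fun i => v (p i)) d0 s d) :=
    FD.all1 (P := fun M S v d0 => St (rl M S) (fun i => v (p i)) d0 →
      ∀ s, ∃! d, Cd (rl M S) (fun i => v (p i)) d0 s d)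
      ((fd_St (fun i => Sum.inl (p i)) (Sum.inr ())).imp (FD.fin fun s =>
        (fd_eu (P := fun M S v d => Cd (rl M S) (fun i => v (Sum.inl (p i))) (v (Sum.inr ())) s d)
          (fd_Cd (fun i => Sum.inl (Sum.inl (p i))) (Sum.inl (Sum.inr ())) (Sum.inr ()) s))))
  have h9 : FD (fun M S (v : α → M) => ∀ d0, St (rl M S) (fun i => v (p i)) d0 →
      ∀ i : Fin k, ∃ e, Cv (rl M S) (fun i => v (p i)) d0 (σ (Sum.inl i)) e) :=
    FD.all1 (P := fun M S v d0 => St (rl M S) (fun i => v (p i)) d0 →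
      ∀ i : Fin k, ∃ e, Cv (rl M S) (fun i => v (p i)) d0 (σ (Sum.inl i)) e)
      ((fd_St (fun i => Sum.inl (p i)) (Sum.inr ())).imp (FD.fin fun i =>
        (FD.ex1 (P := fun M S v e => Cv (rl M S) (fun i => v (Sum.inl (p i))) (v (Sum.inr ()))
          (σ (Sum.inl i)) e)
          (fd_Cv (fun i => Sum.inl (Sum.inl (p i))) (Sum.inl (Sum.inr ())) (Sum.inr ())
            (σ (Sum.inl i))))))
  have h10 : FD (fun M S (v : α → M) => ∀ a : Fin k → M,
      (∀ i, El (rl M S) (fun i => v (p i)) (a i)) →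
      ∃! d0, St (rl M S) (fun i => v (p i)) d0 ∧
        ∀ i, Cv (rl M S) (fun i => v (p i)) d0 (σ (Sum.inl i)) (a i)) :=
    FD.all (P := fun M S v a => (∀ i, El (rl M S) (fun i => v (p i)) (a i)) →
      ∃! d0, St (rl M S) (fun i => v (p i)) d0 ∧
        ∀ i, Cv (rl M S) (fun i => v (p i)) d0 (σ (Sum.inl i)) (a i))
      ((FD.fin fun i => fd_El (fun i => Sum.inl (p i)) (Sum.inr i)).imp
        (fd_eu (P := fun M S v d0 => St (rl M S) (fun i => v (Sum.inl (p i))) d0 ∧
          ∀ i, Cv (rl M S) (fun i => v (Sum.inl (p i))) d0 (σ (Sum.inl i)) (v (Sum.inr i)))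
          ((fd_St (fun i => Sum.inl (Sum.inl (p i))) (Sum.inr ())).and
            (FD.fin fun i => fd_Cv (fun i => Sum.inl (Sum.inl (p i))) (Sum.inr ())
              (Sum.inl (Sum.inr i)) (σ (Sum.inl i))))))
  refine (h1.and (h2.and (h3.and (h4.and (h5.and (h6.and (h7.and (h8.and (h9.and
    h10))))))))).congr fun M S v => ?_
  constructor
  · rintro ⟨a1, a2, a3, a4, a5, a6, a7, a8, a9, a10⟩
    exact ⟨a1, a2, a3, a4, a5, a6, a7, a8, a9, a10⟩
  · rintro ⟨a1, a2, a3, a4, a5, a6, a7, a8, a9, a10⟩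
    exact ⟨a1, a2, a3, a4, a5, a6, a7, a8, a9, a10⟩

end fd

end Pool.Agent.TH686.SP
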