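import Pool.Agent.TH686.SP.Main1

set_option autoImplicit false

/-! Rudimentary sets of numbers, and the passage from partial orders of dimension two to
arbitrary structures. -/

namespace Pool.Agent.TH686.SP

open FirstOrder FirstOrder.Language

/-- rudimentary sets: the least family closed under polynomial equations, complements,
intersections and existential quantifiers bounded by polynomials -/
def Rud (A : Set ℕ) : Prop :=
  ∀ D : (k : ℕ) → Set (Set (Fin k → ℕ)),
    (∀ (k : ℕ) (p q : MvPolynomial (Fin k) ℕ),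
        {v : Fin k → ℕ | MvPolynomial.eval v p = MvPolynomial.eval v q} ∈ D k) →
    (∀ (k : ℕ) (S : Set (Fin k → ℕ)), S ∈ D k → Sᶜ ∈ D k) →
    (∀ (k : ℕ) (S T : Set (Fin k → ℕ)), S ∈ D k → T ∈ D k → S ∩ T ∈ D k) →
    (∀ (k : ℕ) (p : MvPolynomial (Fin k) ℕ) (S : Set (Fin (k + 1) → ℕ)),
        S ∈ D (k + 1) →
        {v : Fin k → ℕ | ∃ x : ℕ, x ≤ MvPolynomial.eval v p ∧
            (Fin.cons x v : Fin (k + 1) → ℕ) ∈ S} ∈ D k) →
    {v : Fin 1 → ℕ | v 0 ∈ A} ∈ D 1

theorem eval_bind {m k : ℕ} (v : Fin m → ℕ) (s : Fin k → MvPolynomial (Fin m) ℕ)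
    (p : MvPolynomial (Fin k) ℕ) :
    MvPolynomial.eval v (MvPolynomial.bind₁ s p) =
      MvPolynomial.eval (fun i => MvPolynomial.eval v (s i)) p :=
  MvPolynomial.eval₂Hom_bind₁ (RingHom.id ℕ) v s p

theorem Rud.poly {A : Set ℕ} (h : Rud A) (p : MvPolynomial (Fin 1) ℕ) :
    Rud {n | MvPolynomial.eval (fun _ => n) p ∈ A} := by
  intro D h1 h2 h3 h4
  have key := h (fun k => {S | ∀ (m : ℕ) (s : Fin k → MvPolynomial (Fin m) ℕ),
    {v : Fin m → ℕ | (fun i => MvPolynomial.eval v (s i)) ∈ S} ∈ D m}) ?_ ?_ ?_ ?_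
  · have := key 1 (fun _ => p)
    have e : ∀ v : Fin 1 → ℕ, (fun _ => v 0) = v := by
      intro v
      funext i
      rw [Subsingleton.elim i 0]
    simp only [Set.mem_ofPred_eq] at this ⊢
    simp only [e]
    exact this
  · intro k p q m s
    have := h1 m (MvPolynomial.bind₁ s p) (MvPolynomial.bind₁ s q)
    simp only [eval_bind] at this
    exact this
  · intro k S hS m s
    exact h2 m _ (hS m s)
  · intro k S T hS hT m s
    exact h3 m _ _ (hS m s) (hT m s)
  · intro k p S hS m s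
    have h5 := h4 m (MvPolynomial.bind₁ s p) _ (hS (m + 1)
      (Fin.cons (α := fun _ => MvPolynomial (Fin (m + 1)) ℕ) (MvPolynomial.X 0)
        (fun i => MvPolynomial.rename Fin.succ (s i))))
    have e : ∀ (v : Fin m → ℕ) (x : ℕ), (fun i => MvPolynomial.eval (Fin.cons x v : Fin (m + 1) → ℕ)
        ((Fin.cons (α := fun _ => MvPolynomial (Fin (m + 1)) ℕ) (MvPolynomial.X 0)
        (fun i => MvPolynomial.rename Fin.succ (s i)) : Fin (k + 1) → _) i)) =
        (Fin.cons x (fun i => MvPolynomial.eval v (s i)) : Fin (k + 1) → ℕ) := by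
      intro v x
      funext i
      refine Fin.cases ?_ (fun i => ?_) i
      · simp
      · simp only [Fin.cons_succ, MvPolynomial.eval_rename]
        congr 1
    simp only [eval_bind, Set.mem_ofPred_eq, e] at h5
    exact h5

theorem Rud.inter {A B : Set ℕ} (h : Rud A) (h' : Rud B) : Rud (A ∩ B) :=
  fun D h1 h2 h3 h4 => h3 1 _ _ (h D h1 h2 h3 h4) (h' D h1 h2 h3 h4)

theorem Rud.pos : Rud {n | 0 < n} := by
  intro D h1 h2 h3 h4
  have h5 := h2 1 _ (h1 1 (MvPolynomial.X 0) 0)
  have e : {v : Fin 1 → ℕ | v 0 ∈ {n : ℕ | 0 < n}} =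
      {v : Fin 1 → ℕ | MvPolynomial.eval v (MvPolynomial.X 0) = MvPolynomial.eval v 0}ᶜ := by
    ext v
    simp only [Set.mem_ofPred_eq, MvPolynomial.eval_X, map_zero, Set.mem_compl_iff]
    omega
  rw [e]
  exact h5

/-- the spectrum of a sentence -/
def spec {L : FirstOrder.Language.{0, 0}} (φ : L.Sentence) : Set ℕ :=
  {n | 0 < n ∧ ∃ (M : Type) (S : L.Structure M), Nat.card M = n ∧ @Sentence.Realize L M S φ}

/-- the spectrum of a sentence over partial orders of dimension at most two -/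
def spec2 (φ : LP.Sentence) : Set ℕ :=
  {n | 0 < n ∧ ∃ (M : Type) (S : LP.Structure M), Nat.card M = n ∧ Dim2 (rl M S) ∧
    @Sentence.Realize LP M S φ}

/-- two binary relation symbols -/
inductive RQ : ℕ → Type
  | a : RQ 2
  | b : RQ 2

/-- the language of two binary relations -/
def LQ : FirstOrder.Language.{0, 0} := ⟨fun _ => Empty, RQ⟩

/-- the first relation -/
def ra (M : Type) (S : LQ.Structure M) (x y : M) : Prop :=
  @Structure.RelMap LQ M S 2 RQ.a ![x, y]

/-- the second relation -/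
def rb (M : Type) (S : LQ.Structure M) (x y : M) : Prop :=
  @Structure.RelMap LQ M S 2 RQ.b ![x, y]

theorem fd_ra {α : Type} (i j : α) : FD (fun M S v => ra M S (v i) (v j)) := by
  refine (FD.rel (L := LQ) RQ.a ![i, j]).congr fun M S v => ?_
  have : (fun t => v (![i, j] t)) = ![v i, v j] := by
    funext t
    fin_cases t <;> rfl
  rw [this]
  rfl

theorem fd_rb {α : Type} (i j : α) : FD (fun M S v => rb M S (v i) (v j)) := by
  refine (FD.rel (L := LQ) RQ.b ![i, j]).congr fun M S v => ?_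
  have : (fun t => v (![i, j] t)) = ![v i, v j] := by
    funext t
    fin_cases t <;> rfl
  rw [this]
  rfl

/-- the structure of two relations -/
def of2 {M : Type} (r s : M → M → Prop) : LQ.Structure M where
  funMap := fun {_} f => nomatch f
  RelMap := fun {_} R v => match R, v with
    | RQ.a, v => r (v 0) (v 1)
    | RQ.b, v => s (v 0) (v 1)

/-- the relation of the partial order -/
def rpo {M : Type} (S : LQ.Structure M) : {m : ℕ} → LP.Relations m → (Fin m → M) → Prop
  | _, RP.lt, u => ra M S (u 0) (u 1) ∧ rb M S (u 0) (u 1)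

/-- intersection of two relations as an interpretation -/
def IQ : Itp LP LQ Unit 1 Empty where
  dom _ _ _ _ _ := True
  eqv _ _ _ _ _ w w' := w 0 = w' 0
  rel R _ _ T _ ws := rpo T R (fun i => ws i 0)
  fn f _ _ _ _ _ _ _ := nomatch f
  fd_dom _ _ _ _ := FD.const True
  fd_eqv _ _ _ _ w w' := FD.eq (w 0) (w' 0)
  fd_rel {m} R _ {α} p ws := by
    cases R
    exact (fd_ra (ws 0 0) (ws 1 0)).and (fd_rb (ws 0 0) (ws 1 0))
  fd_fn f _ _ _ _ _ _ := nomatch f

theorem fd_sto {α : Type} {r : ∀ M : Type, LQ.Structure M → M → M → Prop}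
    (h : ∀ {β : Type} (i j : β), FD (fun M S v => r M S (v i) (v j))) :
    FD (fun M S (_ : α → M) => IsStrictTotalOrder M (r M S)) := by
  have h1 : FD (fun M S (_ : α → M) => ∀ x, ¬ r M S x x) :=
    FD.all1 (P := fun M S v x => ¬ r M S x x) (h (Sum.inr ()) (Sum.inr ())).not
  have h2 : FD (fun M S (_ : α → M) => ∀ x y z, r M S x y → r M S y z → r M S x z) :=
    FD.all1 (P := fun M S v x => ∀ y z, r M S x y → r M S y z → r M S x z) <|
    FD.all1 (P := fun M S v y => ∀ z, r M S (v (Sum.inr ())) y → r M S y z →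
      r M S (v (Sum.inr ())) z) <|
    FD.all1 (P := fun M S v z => r M S (v (Sum.inl (Sum.inr ()))) (v (Sum.inr ())) →
      r M S (v (Sum.inr ())) z → r M S (v (Sum.inl (Sum.inr ()))) z) <|
    (h (Sum.inl (Sum.inl (Sum.inr ()))) (Sum.inl (Sum.inr ()))).imp
      ((h (Sum.inl (Sum.inr ())) (Sum.inr ())).imp (h (Sum.inl (Sum.inl (Sum.inr ()))) (Sum.inr ())))
  have h3 : FD (fun M S (_ : α → M) => ∀ x y, ¬ r M S x y → ¬ r M S y x → x = y) :=
    FD.all1 (P := fun M S v x => ∀ y, ¬ r M S x y → ¬ r M S y x → x = y) <|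
    FD.all1 (P := fun M S v y => ¬ r M S (v (Sum.inr ())) y → ¬ r M S y (v (Sum.inr ())) →
      v (Sum.inr ()) = y) <|
    (h (Sum.inl (Sum.inr ())) (Sum.inr ())).not.imp
      ((h (Sum.inr ()) (Sum.inl (Sum.inr ()))).not.imp (FD.eq _ _))
  refine (h1.and (h2.and h3)).congr fun M S v => ?_
  constructor
  · rintro ⟨a1, a2, a3⟩
    exact { trichotomous := a3, irrefl := a1, trans := a2 }
  · intro a
    exact ⟨a.irrefl, a.trans, a.trichotomous⟩

/-- spectra over partial orders of dimension at most two are spectra -/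
theorem dim2_spec (ψ : LP.Sentence) : ∃ χ : LQ.Sentence, ∀ n : ℕ,
    ((∃ (M : Type) (S : LQ.Structure M), Nat.card M = n ∧ @Sentence.Realize LQ M S χ) ↔
      ∃ (M : Type) (S : LP.Structure M), Nat.card M = n ∧ Dim2 (rl M S) ∧
        @Sentence.Realize LP M S ψ) := by
  obtain ⟨Q, hQ1, hQ2⟩ := sent_tr IQ ψ
  obtain ⟨χ, hχ⟩ := FD.sent (L := LQ) (P := fun M S => IsStrictTotalOrder M (ra M S) ∧
      IsStrictTotalOrder M (rb M S) ∧ Q M S (fun e => e.elim))
    ((fd_sto fd_ra).and ((fd_sto fd_rb).and ((hQ1 (α := Empty) (fun e => e)).congr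
      fun M S v => by rw [show (fun i => v i) = (fun e : Empty => (e.elim : M)) from
        Subsingleton.elim _ _])))
  have hrep : ∀ (M : Type) (S : LQ.Structure M) (S' : LP.Structure M),
      (∀ x y, rl M S' x y ↔ (ra M S x y ∧ rb M S x y)) →
      Rep IQ M S' M S (fun e => e.elim) (fun _ w x => w 0 = x) := by
    intro M S S' h
    refine ⟨fun x => ⟨(), fun _ => x, rfl⟩, fun c w => ⟨fun _ => ⟨_, rfl⟩, fun _ => trivial⟩,
      ?_, ?_, ?_⟩
    · intro c c' w w' x x' h1 h2
      show w 0 = w' 0 ↔ _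
      rw [h1, h2]
    · intro m R cs ws xs h1
      have e : (fun i => ws i 0) = xs := funext h1
      show rpo S R (fun i => ws i 0) ↔ _
      rw [e]
      cases R
      have := h (xs 0) (xs 1)
      refine (this.symm).trans ?_
      have e2 : ![xs 0, xs 1] = xs := by
        funext t
        fin_cases t <;> rfl
      show @Structure.RelMap LP M S' 2 RP.lt ![xs 0, xs 1] ↔ _
      rw [e2]
    · intro m f
      exact nomatch f
  refine ⟨χ, fun n => ⟨?_, ?_⟩⟩
  · rintro ⟨M, S, hc, hr⟩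
    obtain ⟨h1, h2, h3⟩ := (hχ M S).1 hr
    refine ⟨M, ofl fun x y => ra M S x y ∧ rb M S x y, hc, ⟨_, _, h1, h2, fun x y => Iff.rfl⟩, ?_⟩
    exact (hQ2 M _ M S _ _ (hrep M S _ fun x y => Iff.rfl)).1 h3
  · rintro ⟨M, S, hc, ⟨a, b, h1, h2, h3⟩, hr⟩
    refine ⟨M, of2 a b, hc, (hχ M _).2 ⟨h1, h2, ?_⟩⟩
    exact (hQ2 M S M (of2 a b) _ _ (hrep M (of2 a b) S h3)).2 hr

/-- the size polynomial -/
noncomputable def szp (k K : ℕ) : MvPolynomial (Fin 1) ℕ :=
  MvPolynomial.C (K + 2) + MvPolynomial.X 0 +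
    MvPolynomial.C 3 * (MvPolynomial.X 0 ^ k * MvPolynomial.C (K + 1))

theorem eval_szp (k K n : ℕ) : MvPolynomial.eval (fun _ => n) (szp k K) = sz k K n := by
  simp only [szp, sz, map_add, map_mul, map_pow, MvPolynomial.eval_C, MvPolynomial.eval_X]

theorem rud_main : (∀ (L : FirstOrder.Language.{0, 0}) (φ : L.Sentence), Rud (spec φ)) ↔
    ∀ ψ : LP.Sentence, Rud (spec2 ψ) := by
  constructor
  · intro h ψ
    obtain ⟨χ, hχ⟩ := dim2_spec ψ
    have e : spec2 ψ = spec χ := by
      ext n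
      exact and_congr_right fun _ => (hχ n).symm
    rw [e]
    exact h LQ χ
  · intro h L φ
    obtain ⟨k, K, ψ, hψ⟩ := code_spec φ
    have e : spec φ = {n | 0 < n} ∩ {n | MvPolynomial.eval (fun _ => n) (szp k K) ∈ spec2 ψ} := by
      ext n
      refine and_congr_right fun hn => ?_
      rw [Set.mem_ofPred_eq, eval_szp]
      refine (hψ n hn).trans ?_
      have h0 : 0 < sz k K n := by
        unfold sz
        omega
      exact ⟨fun h1 => ⟨h0, h1⟩, fun h1 => h1.2⟩
    rw [e]
    exact Rud.pos.inter ((h ψ).poly (szp k K))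

end Pool.Agent.TH686.SP
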