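import Mathlib

set_option autoImplicit false

/-! A first-order axiomatised coding of a set of `k`-tuples with marks in a partial order. -/

namespace Pool.Agent.TH686.SP

section

variable {M : Type} (P : M → M → Prop) {K : ℕ} (π : Fin (K + 2) → M)

/-- the delimiters -/
def Dl (x : M) : Prop := ¬ P (π 0) x ∧ x ≠ π 0

/-- no delimiter below -/
def Ndl (x : M) : Prop := ∀ d, Dl P π d → ¬ P d x

/-- the elements -/
def El (x : M) : Prop := P (π (Fin.last (K + 1))) x ∧ Ndl P π x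

/-- the point `x` is owned by the delimiter `d`, the last one below it -/
def Own (d x : M) : Prop :=
  Dl P π d ∧ P (π 0) x ∧ P d x ∧ ∀ d', Dl P π d' → P d' x → (d' = d ∨ P d' d)

/-- the tag of a delimiter -/
def Tg (d : M) (s : Fin (K + 1)) : Prop :=
  ∃ x, Own P π d x ∧ P (π s.castSucc) x ∧ ¬ P (π s.succ) x

/-- the value point of a delimiter -/
def Vp (d x : M) : Prop := Own P π d x ∧ P (π (Fin.last (K + 1))) x

/-- the value of a value point: the last element below it -/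
def Vl (x e : M) : Prop := El P π e ∧ P e x ∧ ∀ e', El P π e' → P e' x → (e' = e ∨ P e' e)

/-- the delimiters with tag zero -/
def St (d : M) : Prop := Dl P π d ∧ Tg P π d 0

/-- the last delimiter with tag zero up to `d` -/
def StOf (d0 d : M) : Prop :=
  St P π d0 ∧ (d0 = d ∨ P d0 d) ∧ ∀ d', St P π d' → (d' = d ∨ P d' d) → (d' = d0 ∨ P d' d0)

/-- the delimiter with tag `s` in the block of `d0` -/
def Cd (d0 : M) (s : Fin (K + 1)) (d : M) : Prop := Dl P π d ∧ StOf P π d0 d ∧ Tg P π d s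

/-- the value in slot `s` of the block of `d0` -/
def Cv (d0 : M) (s : Fin (K + 1)) (e : M) : Prop :=
  ∃ d x, Cd P π d0 s d ∧ Vp P π d x ∧ Vl P π x e

/-- the mark in slot `s` of the block of `d0` -/
def Bt (d0 : M) (s : Fin (K + 1)) : Prop :=
  ∃ d x e, Cd P π d0 s d ∧ Vp P π d x ∧ El P π e ∧ P e x

/-- the coding conditions -/
structure Shape {k q : ℕ} (σ : Fin k ⊕ Fin q ≃ Fin (K + 1)) : Prop where
  chain : ∀ i j, i < j → P (π i) (π j)
  nd : ∀ j, Ndl P π (π j)
  cls : ∀ x, P (π 0) x → Ndl P π x → (∃ j, x = π j) ∨ P (π (Fin.last (K + 1))) x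
  own : ∀ x, P (π 0) x → ¬ Ndl P π x → ∃ d, Own P π d x
  tag : ∀ d, Dl P π d → ∃! x, Own P π d x ∧ ¬ P (π (Fin.last (K + 1))) x
  val : ∀ d, Dl P π d → ∃! x, Vp P π d x
  sto : ∀ d, Dl P π d → ∃ d0, StOf P π d0 d
  cd : ∀ d0, St P π d0 → ∀ s, ∃! d, Cd P π d0 s d
  cv : ∀ d0, St P π d0 → ∀ i : Fin k, ∃ e, Cv P π d0 (σ (Sum.inl i)) e
  tup : ∀ a : Fin k → M, (∀ i, El P π (a i)) →
    ∃! d0, St P π d0 ∧ ∀ i, Cv P π d0 (σ (Sum.inl i)) (a i)

end

variable {M : Type} {P : M → M → Prop} {K : ℕ} {π : Fin (K + 2) → M}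

theorem Own.uniq (ht : ∀ x y z, P x y → P y z → P x z) (hi : ∀ x, ¬ P x x) {d d' x : M}
    (h : Own P π d x) (h' : Own P π d' x) : d = d' := by
  rcases h.2.2.2 d' h'.1 h'.2.2.1 with h1 | h1
  · exact h1.symm
  rcases h'.2.2.2 d h.1 h.2.2.1 with h2 | h2
  · exact h2
  · exact absurd (ht _ _ _ h1 h2) (hi _)

theorem Vl.uniq (ht : ∀ x y z, P x y → P y z → P x z) (hi : ∀ x, ¬ P x x) {x e e' : M}
    (h : Vl P π x e) (h' : Vl P π x e') : e = e' := by
  rcases h.2.2 e' h'.1 h'.2.1 with h1 | h1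
  · exact h1.symm
  rcases h'.2.2 e h.1 h.2.1 with h2 | h2
  · exact h2
  · exact absurd (ht _ _ _ h1 h2) (hi _)

theorem StOf.uniq (ht : ∀ x y z, P x y → P y z → P x z) (hi : ∀ x, ¬ P x x) {d d0 d1 : M}
    (h : StOf P π d0 d) (h' : StOf P π d1 d) : d0 = d1 := by
  rcases h.2.2 d1 h'.1 h'.2.1 with h1 | h1
  · exact h1.symm
  rcases h'.2.2 d0 h.1 h.2.1 with h2 | h2
  · exact h2
  · exact absurd (ht _ _ _ h1 h2) (hi _)

/-- the zone of a point below the last pivot -/
theorem zone_ex {x : M} (h0 : P (π 0) x) (hl : ¬ P (π (Fin.last (K + 1))) x) :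
    ∃ s : Fin (K + 1), P (π s.castSucc) x ∧ ¬ P (π s.succ) x := by
  by_contra h
  push Not at h
  refine hl ?_
  have : ∀ j : Fin (K + 2), P (π j) x := by
    intro j
    induction j using Fin.induction with
    | zero => exact h0
    | succ i ih => exact h i ih
  exact this _

theorem zone_uniq (ht : ∀ x y z, P x y → P y z → P x z) (hc : ∀ i j, i < j → P (π i) (π j))
    {x : M} {s s' : Fin (K + 1)} (h1 : P (π s.castSucc) x) (h2 : ¬ P (π s.succ) x)
    (h3 : P (π s'.castSucc) x) (h4 : ¬ P (π s'.succ) x) : s = s' := by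
  have key : ∀ {a b : Fin (K + 1)}, a < b → P (π b.castSucc) x → P (π a.succ) x := by
    intro a b hab hb
    rcases eq_or_lt_of_le (show a.succ ≤ b.castSucc from Fin.succ_le_castSucc_iff.2 hab) with h | h
    · rw [h]
      exact hb
    · exact ht _ _ _ (hc _ _ h) hb
  rcases lt_trichotomy s s' with h | h | h
  · exact absurd (key h h3) h2
  · exact h
  · exact absurd (key h h1) h4

namespace Shape

variable {k q : ℕ} {σ : Fin k ⊕ Fin q ≃ Fin (K + 1)}

theorem tg_uniq (h : Shape P π σ) (ht : ∀ x y z, P x y → P y z → P x z) {d : M}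
    {s s' : Fin (K + 1)} (hd : Dl P π d) (h1 : Tg P π d s) (h2 : Tg P π d s') : s = s' := by
  obtain ⟨x, hx1, hx2, hx3⟩ := h1
  obtain ⟨y, hy1, hy2, hy3⟩ := h2
  have key : ∀ (z : M) (s : Fin (K + 1)), ¬ P (π s.succ) z → ¬ P (π (Fin.last (K + 1))) z := by
    intro z s hz1 hz2
    refine hz1 ?_
    rcases eq_or_lt_of_le (Fin.le_last s.succ) with h3 | h3
    · rw [h3]
      exact hz2
    · exact ht _ _ _ (h.chain _ _ h3) hz2
  have e : x = y := (h.tag d hd).unique ⟨hx1, key _ _ hx3⟩ ⟨hy1, key _ _ hy3⟩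
  subst e
  exact zone_uniq ht h.chain hx2 hx3 hy2 hy3

theorem tg_ex (h : Shape P π σ) {d : M} (hd : Dl P π d) : ∃ s, Tg P π d s := by
  obtain ⟨x, ⟨h1, h2⟩, -⟩ := h.tag d hd
  obtain ⟨s, h3, h4⟩ := zone_ex h1.2.1 h2
  exact ⟨s, x, h1, h3, h4⟩

theorem cv_uniq (h : Shape P π σ) (ht : ∀ x y z, P x y → P y z → P x z) (hi : ∀ x, ¬ P x x)
    {d0 e e' : M} {s : Fin (K + 1)} (h1 : Cv P π d0 s e) (h2 : Cv P π d0 s e') : e = e' := by
  obtain ⟨d, x, h3, h4, h5⟩ := h1
  obtain ⟨d', x', h6, h7, h8⟩ := h2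
  have e1 : d = d' := (h.cd d0 h3.2.1.1 s).unique h3 h6
  subst e1
  have e2 : x = x' := (h.val d h3.1).unique h4 h7
  subst e2
  exact h5.uniq ht hi h8

theorem card_pts (h : Shape P π σ) (ht : ∀ x y z, P x y → P y z → P x z) (hi : ∀ x, ¬ P x x)
    [Finite M] : Nat.card {x // P (π 0) x ∧ ¬ Ndl P π x} = 2 * Nat.card {x // Dl P π x} := by
  choose t ht1 _ using h.tag
  choose v hv1 hv2 using h.val
  have hp : ∀ {d x}, Own P π d x → P (π 0) x ∧ ¬ Ndl P π x := fun {d x} hd =>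
    ⟨hd.2.1, fun h1 => h1 d hd.1 hd.2.2.1⟩
  have key : Nat.card ({x // Dl P π x} ⊕ {x // Dl P π x}) =
      Nat.card {x // P (π 0) x ∧ ¬ Ndl P π x} := by
    refine Nat.card_congr (Equiv.ofBijective (Sum.elim
      (fun d => ⟨t d.1 d.2, hp (ht1 d.1 d.2).1⟩) (fun d => ⟨v d.1 d.2, hp (hv1 d.1 d.2).1⟩))
      ⟨?_, ?_⟩)
    · rintro (⟨a, ha⟩ | ⟨a, ha⟩) (⟨b, hb⟩ | ⟨b, hb⟩) hab
      · have e : t a ha = t b hb := congrArg Subtype.val hab
        have : a = b := (ht1 a ha).1.uniq ht hi (e ▸ (ht1 b hb).1)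
        subst this
        rfl
      · have e : t a ha = v b hb := congrArg Subtype.val hab
        exact absurd (e ▸ (hv1 b hb).2) (ht1 a ha).2
      · have e : v a ha = t b hb := congrArg Subtype.val hab
        exact absurd (e ▸ (hv1 a ha).2) (ht1 b hb).2
      · have e : v a ha = v b hb := congrArg Subtype.val hab
        have : a = b := (hv1 a ha).1.uniq ht hi (e ▸ (hv1 b hb).1)
        subst this
        rfl
    · rintro ⟨x, hx1, hx2⟩
      obtain ⟨d, hd⟩ := h.own x hx1 hx2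
      by_cases h1 : P (π (Fin.last (K + 1))) x
      · refine ⟨Sum.inr ⟨d, hd.1⟩, Subtype.ext ?_⟩
        exact (hv2 d hd.1 x ⟨hd, h1⟩).symm
      · refine ⟨Sum.inl ⟨d, hd.1⟩, Subtype.ext ?_⟩
        exact (h.tag d hd.1).unique (ht1 d hd.1) ⟨hd, h1⟩
  rw [← key, Nat.card_sum]
  ring

theorem card_dl (h : Shape P π σ) (ht : ∀ x y z, P x y → P y z → P x z) (hi : ∀ x, ¬ P x x) :
    Nat.card {x // Dl P π x} = Nat.card {x // St P π x} * (K + 1) := by
  choose c hc1 hc2 using h.cd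
  have key : Nat.card ({x // St P π x} × Fin (K + 1)) = Nat.card {x // Dl P π x} := by
    refine Nat.card_congr (Equiv.ofBijective (fun q => ⟨c q.1.1 q.1.2 q.2, (hc1 _ _ _).1⟩)
      ⟨?_, ?_⟩)
    · rintro ⟨⟨a, ha⟩, s⟩ ⟨⟨b, hb⟩, s'⟩ hab
      have e : c a ha s = c b hb s' := congrArg Subtype.val hab
      have h1 := hc1 a ha s
      have h2 := hc1 b hb s'
      rw [← e] at h2
      have e1 : a = b := h1.2.1.uniq ht hi h2.2.1
      subst e1
      have e2 : s = s' := h.tg_uniq ht h1.1 h1.2.2 h2.2.2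
      subst e2
      rfl
    · rintro ⟨d, hd⟩
      obtain ⟨d0, h0⟩ := h.sto d hd
      obtain ⟨s, hs⟩ := h.tg_ex hd
      exact ⟨(⟨d0, h0.1⟩, s), Subtype.ext (hc2 d0 h0.1 s d ⟨hd, h0, hs⟩).symm⟩
  rw [← key, Nat.card_prod, Nat.card_fin]

theorem card_st (h : Shape P π σ) (ht : ∀ x y z, P x y → P y z → P x z) (hi : ∀ x, ¬ P x x)
    [Finite M] : Nat.card {x // St P π x} = Nat.card {x // El P π x} ^ k := by
  choose e he using h.cv
  have hel : ∀ {d0 s x}, Cv P π d0 s x → El P π x := by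
    rintro d0 s x ⟨_, _, _, _, h1⟩
    exact h1.1
  have key : Nat.card {x // St P π x} = Nat.card (Fin k → {x // El P π x}) := by
    refine Nat.card_congr (Equiv.ofBijective (fun d i => ⟨e d.1 d.2 i, hel (he d.1 d.2 i)⟩)
      ⟨?_, ?_⟩)
    · rintro ⟨a, ha⟩ ⟨b, hb⟩ hab
      have e1 : ∀ i, e a ha i = e b hb i := fun i => congrArg Subtype.val (congrFun hab i)
      refine Subtype.ext ((h.tup (e a ha) fun i => hel (he a ha i)).unique ⟨ha, he a ha⟩
        ⟨hb, fun i => ?_⟩)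
      rw [e1 i]
      exact he b hb i
    · intro a
      obtain ⟨d0, ⟨h1, h2⟩, -⟩ := h.tup (fun i => (a i).1) fun i => (a i).2
      refine ⟨⟨d0, h1⟩, funext fun i => Subtype.ext ?_⟩
      exact h.cv_uniq ht hi (he d0 h1 i) (h2 i)
  rw [key, Nat.card_fun, Nat.card_fin]

theorem card_all (h : Shape P π σ) (ht : ∀ x y z, P x y → P y z → P x z) (hi : ∀ x, ¬ P x x)
    [Finite M] : Nat.card M = (K + 2) + Nat.card {x // El P π x} +
      3 * ((Nat.card {x // El P π x}) ^ k * (K + 1)) := by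
  have key : Nat.card (Fin (K + 2) ⊕ {x // El P π x} ⊕ {x // Dl P π x} ⊕
      {x // P (π 0) x ∧ ¬ Ndl P π x}) = Nat.card M := by
    refine Nat.card_congr (Equiv.ofBijective (Sum.elim π (Sum.elim Subtype.val
      (Sum.elim Subtype.val Subtype.val))) ⟨?_, ?_⟩)
    · have hinj : Function.Injective π := by
        intro i j hij
        rcases lt_trichotomy i j with h1 | h1 | h1
        · have := h.chain _ _ h1
          rw [hij] at this
          exact absurd this (hi _)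
        · exact h1
        · have := h.chain _ _ h1
          rw [hij] at this
          exact absurd this (hi _)
      have h0 : ∀ j, j = 0 ∨ P (π 0) (π j) := by
        intro j
        rcases Fin.eq_zero_or_eq_succ j with h1 | ⟨i, h1⟩
        · exact Or.inl h1
        · exact Or.inr (h.chain _ _ (by rw [h1]; exact Fin.succ_pos i))
      have hel0 : ∀ {x}, El P π x → P (π 0) x := fun {x} hx =>
        ht _ _ _ (h.chain _ _ (Fin.last_pos)) hx.1
      have n1 : ∀ (j) (x : {x // El P π x}), π j ≠ x.1 := by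
        rintro j ⟨x, hx⟩ (h1 : π j = x)
        rcases eq_or_lt_of_le (Fin.le_last j) with h2 | h2
        · have := hx.1
          rw [← h1, h2] at this
          exact hi _ this
        · have := ht _ _ _ (h.chain _ _ h2) hx.1
          rw [h1] at this
          exact hi _ this
      have n2 : ∀ (j) (x : {x // Dl P π x}), π j ≠ x.1 := by
        rintro j ⟨x, hx⟩ (h1 : π j = x)
        rcases h0 j with h2 | h2
        · exact hx.2 (by rw [← h1, h2])
        · exact hx.1 (h1 ▸ h2)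
      have n3 : ∀ (j) (x : {x // P (π 0) x ∧ ¬ Ndl P π x}), π j ≠ x.1 := by
        rintro j ⟨x, hx⟩ (h1 : π j = x)
        exact hx.2 (h1 ▸ h.nd j)
      have n4 : ∀ (y : {x // El P π x}) (x : {x // Dl P π x}), y.1 ≠ x.1 := by
        rintro ⟨y, hy⟩ ⟨x, hx⟩ (h1 : y = x)
        exact hx.1 (h1 ▸ hel0 hy)
      have n5 : ∀ (y : {x // El P π x}) (x : {x // P (π 0) x ∧ ¬ Ndl P π x}), y.1 ≠ x.1 := by
        rintro ⟨y, hy⟩ ⟨x, hx⟩ (h1 : y = x)
        exact hx.2 (h1 ▸ hy.2)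
      have n6 : ∀ (y : {x // Dl P π x}) (x : {x // P (π 0) x ∧ ¬ Ndl P π x}), y.1 ≠ x.1 := by
        rintro ⟨y, hy⟩ ⟨x, hx⟩ (h1 : y = x)
        exact hy.1 (h1 ▸ hx.1)
      rintro (a | a | a | a) (b | b | b | b) hab
      · exact congrArg _ (hinj hab)
      · exact absurd hab (n1 _ _)
      · exact absurd hab (n2 _ _)
      · exact absurd hab (n3 _ _)
      · exact absurd hab.symm (n1 _ _)
      · exact congrArg _ (congrArg _ (Subtype.ext hab))
      · exact absurd hab (n4 _ _)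
      · exact absurd hab (n5 _ _)
      · exact absurd hab.symm (n2 _ _)
      · exact absurd hab.symm (n4 _ _)
      · exact congrArg _ (congrArg _ (congrArg _ (Subtype.ext hab)))
      · exact absurd hab (n6 _ _)
      · exact absurd hab.symm (n3 _ _)
      · exact absurd hab.symm (n5 _ _)
      · exact absurd hab.symm (n6 _ _)
      · exact congrArg _ (congrArg _ (congrArg _ (Subtype.ext hab)))
    · intro x
      by_cases h1 : P (π 0) x
      · by_cases h2 : Ndl P π x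
        · rcases h.cls x h1 h2 with ⟨j, h3⟩ | h3
          · exact ⟨Sum.inl j, h3.symm⟩
          · exact ⟨Sum.inr (Sum.inl ⟨x, h3, h2⟩), rfl⟩
        · exact ⟨Sum.inr (Sum.inr (Sum.inr ⟨x, h1, h2⟩)), rfl⟩
      · by_cases h2 : x = π 0
        · exact ⟨Sum.inl 0, h2.symm⟩
        · exact ⟨Sum.inr (Sum.inr (Sum.inl ⟨x, h1, h2⟩)), rfl⟩
  rw [← key, Nat.card_sum, Nat.card_sum, Nat.card_sum, h.card_pts ht hi, h.card_dl ht hi,
    h.card_st ht hi, Nat.card_fin]
  ring

end Shape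

end Pool.Agent.TH686.SP
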